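import Pool.Agent.Helper5_PM.M097

/-!
Complexification of real analytic functions on a compact interval; analyticity of the integrals of
products of functions of `X = z sin² t` and `Y = z cos² t / (1 - X)`; orders at a point.
-/

set_option autoImplicit false

namespace Pool.Agent.QUD.H16A

open MeasureTheory Filter Topology Set Real

/-! ### Complexification -/

theorem ext_loc {f : ℝ → ℝ} {x : ℝ} (h : AnalyticAt ℝ f x) :
    ∃ (r : ℝ) (G : ℂ → ℂ), 0 < r ∧ AnalyticOnNhd ℂ G (Metric.ball (x : ℂ) r) ∧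
      ∀ y : ℝ, |y - x| < r → G (y : ℂ) = (f y : ℂ) := by
  obtain ⟨p, R, hp⟩ := h
  obtain ⟨ρ, hρ0, hρR⟩ : ∃ ρ : NNReal, 0 < ρ ∧ (ρ : ENNReal) < R := by
    obtain ⟨ρ, h1, h2⟩ := ENNReal.lt_iff_exists_nnreal_btwn.1 hp.r_pos
    exact ⟨ρ, by exact_mod_cast h1, h2⟩
  obtain ⟨C, hC, hbound⟩ := p.norm_mul_pow_le_of_lt_radius (lt_of_lt_of_le hρR hp.r_le)
  obtain ⟨P, hP⟩ : ∃ P : FormalMultilinearSeries ℂ ℂ ℂ,
    P = FormalMultilinearSeries.ofScalars ℂ (fun n => ((p.coeff n : ℝ) : ℂ)) := ⟨_, rfl⟩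
  have hrad : (ρ : ENNReal) ≤ P.radius := by
    apply P.le_radius_of_bound C
    intro n
    rw [hP, FormalMultilinearSeries.ofScalars_norm, Complex.norm_real]
    refine le_trans (mul_le_mul_of_nonneg_right ?_ (by positivity)) (hbound n)
    exact le_of_eq p.norm_apply_eq_norm_coef.symm
  have hrad0 : 0 < P.radius := lt_of_lt_of_le (by exact_mod_cast hρ0) hrad
  have hPb := P.hasFPowerSeriesOnBall hrad0
  have hPan : AnalyticOnNhd ℂ P.sum (Metric.ball (0 : ℂ) ρ) := by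
    intro z hz
    apply hPb.analyticAt_of_mem
    rw [Metric.mem_eball] at *
    refine lt_of_lt_of_le ?_ hrad
    rw [edist_dist, ENNReal.ofReal_lt_iff_lt_toReal dist_nonneg (by simp)]
    simpa using hz
  refine ⟨ρ, fun z => P.sum (z - x), by exact_mod_cast hρ0, ?_, ?_⟩
  · intro z hz
    have h1 : AnalyticAt ℂ P.sum (z - x) := by
      apply hPan
      rw [Metric.mem_ball, dist_zero_right, ← dist_eq_norm]
      exact hz
    exact AnalyticAt.fun_comp h1 (analyticAt_id.sub analyticAt_const)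
  · intro y hy
    have hy' : y - x ∈ Metric.eball (0 : ℝ) R := by
      rw [Metric.mem_eball, edist_zero_right]
      refine lt_of_le_of_lt ?_ hρR
      rw [← ofReal_norm, Real.norm_eq_abs]
      rw [ENNReal.ofReal_le_iff_le_toReal (by simp)]
      simpa using hy.le
    have h1 := hp.hasSum hy'
    rw [add_sub_cancel] at h1
    have h2 : HasSum (fun n => ((p.coeff n : ℝ) : ℂ) • ((y : ℂ) - x) ^ n) ((f y : ℝ) : ℂ) := by
      have h3 := Complex.hasSum_ofReal.2 h1
      have h4 : (fun n => ((p.coeff n : ℝ) : ℂ) • ((y : ℂ) - x) ^ n) =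
          fun n => (((p n fun _ => y - x) : ℝ) : ℂ) := by
        funext n
        rw [p.apply_eq_pow_smul_coeff, smul_eq_mul, smul_eq_mul]
        push_cast
        ring
      rw [h4]
      exact h3
    have h5 : P.sum ((y : ℂ) - x) = ∑' n, ((p.coeff n : ℝ) : ℂ) • ((y : ℂ) - x) ^ n := by
      unfold FormalMultilinearSeries.sum
      congr 1
      funext n
      rw [hP, FormalMultilinearSeries.ofScalars_apply_eq]
    show P.sum ((y : ℂ) - x) = _
    rw [h5, h2.tsum_eq]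

/-- complex extension of a real analytic function near a compact interval -/
theorem ext {f : ℝ → ℝ} {a b : ℝ} (h : AnalyticOnNhd ℝ f (Icc a b)) :
    ∃ F : ℂ → ℂ, ∀ x ∈ Icc a b, AnalyticAt ℂ F (x : ℂ) ∧ ∀ᶠ y : ℝ in 𝓝 x, F (y : ℂ) = (f y : ℂ) := by
  classical
  have h0 : ∀ x : ℝ, ∃ (r : ℝ) (G : ℂ → ℂ), x ∈ Icc a b → 0 < r ∧
      AnalyticOnNhd ℂ G (Metric.ball (x : ℂ) r) ∧ ∀ y : ℝ, |y - x| < r → G (y : ℂ) = (f y : ℂ) := by
    intro x
    by_cases hx : x ∈ Icc a b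
    · obtain ⟨r, G, h1⟩ := ext_loc (h x hx)
      exact ⟨r, G, fun _ => h1⟩
    · exact ⟨1, 0, fun h => absurd h hx⟩
  choose r G hG using h0
  -- consistency
  have hcons : ∀ x ∈ Icc a b, ∀ x' ∈ Icc a b, ∀ z : ℂ, z ∈ Metric.ball (x : ℂ) (r x) →
      z ∈ Metric.ball (x' : ℂ) (r x') → G x z = G x' z := by
    intro x hx x' hx' z hz hz'
    obtain ⟨h1, h2, h3⟩ := hG x hx
    obtain ⟨h1', h2', h3'⟩ := hG x' hx'
    have hre : ∀ (u : ℝ) (s : ℝ), z ∈ Metric.ball (u : ℂ) s →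
        ((z.re : ℝ) : ℂ) ∈ Metric.ball (u : ℂ) s := by
      intro u s hu
      rw [Metric.mem_ball, dist_eq_norm] at hu ⊢
      refine lt_of_le_of_lt ?_ hu
      rw [← Complex.ofReal_sub, Complex.norm_real, Real.norm_eq_abs]
      have := Complex.abs_re_le_norm (z - u)
      rwa [Complex.sub_re, Complex.ofReal_re] at this
    have hz1 := hre x (r x) hz
    have hz2 := hre x' (r x') hz'
    have hpre : IsPreconnected (Metric.ball (x : ℂ) (r x) ∩ Metric.ball (x' : ℂ) (r x')) :=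
      ((convex_ball _ _).inter (convex_ball _ _)).isPreconnected
    refine (h2.mono inter_subset_left).eqOn_of_preconnected_of_frequently_eq
      (h2'.mono inter_subset_right) hpre ⟨hz1, hz2⟩ ?_ ⟨hz, hz'⟩
    -- the real points
    have hev : ∀ᶠ y : ℝ in 𝓝 z.re, G x (y : ℂ) = G x' (y : ℂ) := by
      have e1 : ∀ᶠ y : ℝ in 𝓝 z.re, |y - x| < r x := by
        have : Continuous fun y : ℝ => |y - x| := by fun_prop
        apply this.continuousAt.eventually_lt continuousAt_const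
        rw [Metric.mem_ball, dist_eq_norm, ← Complex.ofReal_sub, Complex.norm_real] at hz1
        exact hz1
      have e2 : ∀ᶠ y : ℝ in 𝓝 z.re, |y - x'| < r x' := by
        have : Continuous fun y : ℝ => |y - x'| := by fun_prop
        apply this.continuousAt.eventually_lt continuousAt_const
        rw [Metric.mem_ball, dist_eq_norm, ← Complex.ofReal_sub, Complex.norm_real] at hz2
        exact hz2
      filter_upwards [e1, e2] with y h4 h5
      rw [h3 y h4, h3' y h5]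
    have htend : Tendsto (fun y : ℝ => (y : ℂ)) (𝓝[≠] z.re) (𝓝[≠] ((z.re : ℝ) : ℂ)) := by
      apply tendsto_nhdsWithin_of_tendsto_nhds_of_eventually_within
      · exact (Complex.continuous_ofReal.tendsto _).mono_left nhdsWithin_le_nhds
      · filter_upwards [self_mem_nhdsWithin] with y hy
        intro h6
        exact hy (Complex.ofReal_injective h6)
    exact htend.frequently (eventually_nhdsWithin_of_eventually_nhds hev).frequently
  obtain ⟨F, hF⟩ : ∃ F : ℂ → ℂ, ∀ x ∈ Icc a b, ∀ z ∈ Metric.ball (x : ℂ) (r x), F z = G x z := by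
    refine ⟨fun z => if h : ∃ x, x ∈ Icc a b ∧ z ∈ Metric.ball (x : ℂ) (r x) then
      G (Classical.choose h) z else 0, ?_⟩
    intro x hx z hz
    have h1 : ∃ x, x ∈ Icc a b ∧ z ∈ Metric.ball (x : ℂ) (r x) := ⟨x, hx, hz⟩
    show (if h : ∃ x, x ∈ Icc a b ∧ z ∈ Metric.ball (x : ℂ) (r x) then
      G (Classical.choose h) z else 0) = G x z
    rw [dif_pos h1]
    exact hcons _ (Classical.choose_spec h1).1 x hx z (Classical.choose_spec h1).2 hz
  refine ⟨F, fun x hx => ?_⟩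
  obtain ⟨h1, h2, h3⟩ := hG x hx
  constructor
  · have h4 : AnalyticAt ℂ (G x) (x : ℂ) := h2 _ (Metric.mem_ball_self h1)
    refine h4.congr ?_
    filter_upwards [Metric.ball_mem_nhds (x : ℂ) h1] with z hz
    exact (hF x hx z hz).symm
  · have : Continuous fun y : ℝ => |y - x| := by fun_prop
    have h5 : ∀ᶠ y : ℝ in 𝓝 x, |y - x| < r x := by
      apply this.continuousAt.eventually_lt continuousAt_const
      simpa using h1
    filter_upwards [h5] with y hy
    rw [hF x hx, h3 y hy]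
    rw [Metric.mem_ball, dist_eq_norm, ← Complex.ofReal_sub, Complex.norm_real]
    exact hy

/-! ### Divided differences -/

theorem an_dslope {f : ℝ → ℝ} {z0 x : ℝ} (hz : AnalyticAt ℝ f z0) (hx : AnalyticAt ℝ f x) :
    AnalyticAt ℝ (dslope f z0) x := by
  by_cases hne : x = z0
  · subst hne
    obtain ⟨p, hp⟩ := hx
    exact ⟨_, hp.has_fpower_series_dslope_fslope⟩
  · have h1 : AnalyticAt ℝ (fun y => (y - z0)⁻¹ * (f y - f z0)) x :=
      ((analyticAt_id.sub analyticAt_const).inv (sub_ne_zero.2 hne)).mul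
        (hx.sub analyticAt_const)
    refine h1.congr ?_
    filter_upwards [isOpen_ne.mem_nhds hne] with y hy
    rw [dslope_of_ne _ hy, slope_def_field]
    rw [div_eq_inv_mul]

/-! ### Integrals -/

/-- the second variable -/
noncomputable def yy (z t : ℝ) : ℝ := z * cos t ^ 2 / (1 - z * sin t ^ 2)

theorem pan {z0 : ℝ} (h0 : 0 < z0) (h1 : z0 < 1) {φ ψ : ℝ → ℝ}
    (hφ : AnalyticOnNhd ℝ φ (Icc 0 z0)) (hψ : AnalyticOnNhd ℝ ψ (Icc 0 z0)) :
    AnalyticAt ℝ (fun z => ∫ t in (0 : ℝ)..(π / 2), φ (z * sin t ^ 2) * ψ (yy z t)) z0 := by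
  obtain ⟨F, hF⟩ := ext hφ
  obtain ⟨G, hG⟩ := ext hψ
  have hs : ∀ t : ℝ, z0 * sin t ^ 2 ∈ Icc 0 z0 := fun t =>
    ⟨by positivity, by nlinarith [sin_sq_le_one t, h0]⟩
  have hs1 : ∀ t : ℝ, 0 < 1 - z0 * sin t ^ 2 := fun t => by linarith [(hs t).2]
  have hy : ∀ t : ℝ, yy z0 t ∈ Icc 0 z0 := by
    intro t
    unfold yy
    constructor
    · exact div_nonneg (by positivity) (hs1 t).le
    · rw [div_le_iff₀ (hs1 t)]
      have h2 := sin_sq_add_cos_sq t
      have h3 : 0 ≤ sin t ^ 2 := sq_nonneg _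
      nlinarith [mul_nonneg (mul_nonneg h0.le (sub_nonneg.2 h1.le)) h3]
  have han : AnalyticAt ℂ (fun z : ℂ => ∫ t in (0 : ℝ)..(π / 2),
      F (z * ((sin t ^ 2 : ℝ) : ℂ)) *
        G (z * ((cos t ^ 2 : ℝ) : ℂ) / (1 - z * ((sin t ^ 2 : ℝ) : ℂ)))) (z0 : ℂ) := by
    have hcs : Continuous fun t : ℝ => ((sin t ^ 2 : ℝ) : ℂ) := by fun_prop
    have hcc : Continuous fun t : ℝ => ((cos t ^ 2 : ℝ) : ℂ) := by fun_prop
    refine H16F.H69.good_integral (G := fun q : ℂ × ℝ => F (q.1 * ((sin q.2 ^ 2 : ℝ) : ℂ)) *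
        G (q.1 * ((cos q.2 ^ 2 : ℝ) : ℂ) / (1 - q.1 * ((sin q.2 ^ 2 : ℝ) : ℂ)))) (by positivity) ?_
    intro t ht
    have g1 : H16F.H69.Good (fun q : ℂ × ℝ => q.1 * ((sin q.2 ^ 2 : ℝ) : ℂ)) ((z0 : ℂ), t) :=
      (H16F.H69.Good.fst _).mul (H16F.H69.Good.snd hcs _)
    have g2 : H16F.H69.Good (fun q : ℂ × ℝ => q.1 * ((cos q.2 ^ 2 : ℝ) : ℂ)) ((z0 : ℂ), t) :=
      (H16F.H69.Good.fst _).mul (H16F.H69.Good.snd hcc _)
    have g3 : H16F.H69.Good (fun q : ℂ × ℝ => q.1 * ((cos q.2 ^ 2 : ℝ) : ℂ) /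
        (1 - q.1 * ((sin q.2 ^ 2 : ℝ) : ℂ))) ((z0 : ℂ), t) := by
      refine g2.div ((H16F.H69.Good.const 1 _).sub g1) ?_
      show (1 : ℂ) - (z0 : ℂ) * ((sin t ^ 2 : ℝ) : ℂ) ≠ 0
      have : ((1 - z0 * sin t ^ 2 : ℝ) : ℂ) ≠ 0 := by
        exact_mod_cast (hs1 t).ne'
      push_cast at this ⊢
      exact this
    refine H16F.H69.Good.mul (g1.comp ?_) (g3.comp ?_)
    · show AnalyticAt ℂ F ((z0 : ℂ) * ((sin t ^ 2 : ℝ) : ℂ))
      have := (hF _ (hs t)).1
      push_cast at this ⊢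
      exact this
    · show AnalyticAt ℂ G ((z0 : ℂ) * ((cos t ^ 2 : ℝ) : ℂ) / (1 - (z0 : ℂ) * ((sin t ^ 2 : ℝ) : ℂ)))
      have := (hG _ (hy t)).1
      unfold yy at this
      push_cast at this ⊢
      exact this
  have hre : AnalyticAt ℝ (fun z : ℝ => (∫ t in (0 : ℝ)..(π / 2),
      F ((z : ℂ) * ((sin t ^ 2 : ℝ) : ℂ)) *
        G ((z : ℂ) * ((cos t ^ 2 : ℝ) : ℂ) / (1 - (z : ℂ) * ((sin t ^ 2 : ℝ) : ℂ)))).re) z0 := by
    have e1 : AnalyticAt ℝ (fun z : ℝ => (z : ℂ)) z0 := Complex.ofRealCLM.analyticAt z0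
    have e2 := (han.restrictScalars (𝕜 := ℝ)).fun_comp_of_eq e1 rfl
    exact (Complex.reCLM.analyticAt _).fun_comp_of_eq e2 rfl
  refine hre.congr ?_
  have hev : ∀ᶠ z : ℝ in 𝓝 z0, ∀ t ∈ Icc (0 : ℝ) (π / 2),
      F ((z * sin t ^ 2 : ℝ) : ℂ) = (φ (z * sin t ^ 2) : ℂ) ∧
      G ((yy z t : ℝ) : ℂ) = (ψ (yy z t) : ℂ) := by
    apply IsCompact.eventually_forall_of_forall_eventually isCompact_Icc
    intro t _
    have c1 : ContinuousAt (fun q : ℝ × ℝ => q.1 * sin q.2 ^ 2) (z0, t) := by fun_prop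
    have c2 : ContinuousAt (fun q : ℝ × ℝ => yy q.1 q.2) (z0, t) := by
      unfold yy
      apply ContinuousAt.div (by fun_prop) (by fun_prop)
      exact (hs1 t).ne'
    exact (c1.eventually (hF _ (hs t)).2).and (c2.eventually (hG _ (hy t)).2)
  filter_upwards [hev] with z hz
  have h3 : (∫ t in (0 : ℝ)..(π / 2), F ((z : ℂ) * ((sin t ^ 2 : ℝ) : ℂ)) *
        G ((z : ℂ) * ((cos t ^ 2 : ℝ) : ℂ) / (1 - (z : ℂ) * ((sin t ^ 2 : ℝ) : ℂ)))) =
      ((∫ t in (0 : ℝ)..(π / 2), φ (z * sin t ^ 2) * ψ (yy z t) : ℝ) : ℂ) := by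
    rw [← intervalIntegral.integral_ofReal]
    apply intervalIntegral.integral_congr
    intro t ht
    rw [uIcc_of_le (by positivity)] at ht
    obtain ⟨h4, h5⟩ := hz t ht
    show F ((z : ℂ) * ((sin t ^ 2 : ℝ) : ℂ)) *
        G ((z : ℂ) * ((cos t ^ 2 : ℝ) : ℂ) / (1 - (z : ℂ) * ((sin t ^ 2 : ℝ) : ℂ))) =
      ((φ (z * sin t ^ 2) * ψ (yy z t) : ℝ) : ℂ)
    unfold yy at h5 ⊢
    rw [Complex.ofReal_mul, ← h4, ← h5]
    push_cast
    rfl
  rw [h3, Complex.ofReal_re]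

/-! ### Orders -/

theorem ord_half {E : ℝ → ℝ} {z0 C : ℝ} (hE : AnalyticAt ℝ E z0) (n : ℕ)
    (h : Tendsto (fun z => E z / ((z0 - z) ^ n / √(z0 - z))) (𝓝[<] z0) (𝓝 C)) : C = 0 := by
  have hsq : Tendsto (fun z : ℝ => √(z0 - z)) (𝓝[<] z0) (𝓝 0) := by
    have : Continuous fun z : ℝ => √(z0 - z) := by fun_prop
    have h1 := this.tendsto z0
    rw [sub_self, sqrt_zero] at h1
    exact h1.mono_left nhdsWithin_le_nhds
  have hd : ∀ m : ℕ, Tendsto (fun z : ℝ => (z0 - z) ^ m) (𝓝[<] z0) (𝓝 (0 ^ m)) := by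
    intro m
    have : Continuous fun z : ℝ => (z0 - z) ^ m := by fun_prop
    have h1 := this.tendsto z0
    rw [sub_self] at h1
    exact h1.mono_left nhdsWithin_le_nhds
  by_cases h0 : ∀ᶠ z in 𝓝 z0, E z = 0
  · refine tendsto_nhds_unique h ?_
    refine Tendsto.congr' ?_ tendsto_const_nhds
    filter_upwards [eventually_nhdsWithin_of_eventually_nhds h0] with z hz
    rw [hz, zero_div]
  · obtain ⟨m, e, he, he0, hEe⟩ := hE.exists_eventuallyEq_pow_smul_nonzero_iff.2 h0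
    have het : Tendsto e (𝓝[<] z0) (𝓝 (e z0)) := he.continuousAt.tendsto.mono_left nhdsWithin_le_nhds
    have hEe' := eventually_nhdsWithin_of_eventually_nhds (s := Iio z0) hEe
    rcases le_or_gt n m with hnm | hnm
    · refine tendsto_nhds_unique h ?_
      have h2 : Tendsto (fun z => (-1) ^ m * ((z0 - z) ^ (m - n) * (√(z0 - z) * e z))) (𝓝[<] z0)
          (𝓝 ((-1) ^ m * (0 ^ (m - n) * (0 * e z0)))) :=
        ((hd (m - n)).mul (hsq.mul het)).const_mul _
      rw [zero_mul, mul_zero, mul_zero] at h2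
      refine h2.congr' ?_
      filter_upwards [hEe', self_mem_nhdsWithin] with z hz hlt
      have hpos : 0 < z0 - z := sub_pos.2 hlt
      rw [hz, smul_eq_mul, div_div_eq_mul_div, eq_div_iff (by positivity)]
      have e1 : (z - z0) ^ m = (-1) ^ m * (z0 - z) ^ m := by
        rw [← mul_pow]
        congr 1
        ring
      have e2 : (z0 - z) ^ m = (z0 - z) ^ (m - n) * (z0 - z) ^ n := by
        rw [← pow_add, Nat.sub_add_cancel hnm]
      rw [e1, e2]
      ring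
    · exfalso
      have h2 : Tendsto (fun z => (E z / ((z0 - z) ^ n / √(z0 - z))) *
          ((z0 - z) ^ (n - m - 1) * √(z0 - z))) (𝓝[<] z0) (𝓝 (C * (0 ^ (n - m - 1) * 0))) :=
        h.mul ((hd _).mul hsq)
      rw [mul_zero, mul_zero] at h2
      have h3 : Tendsto (fun z => (-1) ^ m * e z) (𝓝[<] z0) (𝓝 ((-1) ^ m * e z0)) :=
        het.const_mul _
      have h4 := tendsto_nhds_unique (h2.congr' ?_) h3
      · have h5 : (-1 : ℝ) ^ m ≠ 0 := pow_ne_zero _ (by norm_num)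
        rcases mul_eq_zero.1 h4.symm with h6 | h6
        · exact h5 h6
        · exact he0 h6
      · filter_upwards [hEe', self_mem_nhdsWithin] with z hz hlt
        have hpos : 0 < z0 - z := sub_pos.2 hlt
        have hsqm : √(z0 - z) * √(z0 - z) = z0 - z := mul_self_sqrt hpos.le
        have e1 : (z - z0) ^ m = (-1) ^ m * (z0 - z) ^ m := by
          rw [← mul_pow]
          congr 1
          ring
        have e2 : (z0 - z) ^ n = (z0 - z) ^ (n - m - 1) * (z0 - z) * (z0 - z) ^ m := by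
          rw [← pow_succ, ← pow_add]
          congr 1
          omega
        rw [hz, smul_eq_mul, div_div_eq_mul_div, div_mul_eq_mul_div,
          div_eq_iff (by positivity), e1, e2]
        calc (-1) ^ m * (z0 - z) ^ m * e z * √(z0 - z) * ((z0 - z) ^ (n - m - 1) * √(z0 - z))
            = (-1) ^ m * (z0 - z) ^ m * e z * (z0 - z) ^ (n - m - 1) *
              (√(z0 - z) * √(z0 - z)) := by ring
          _ = _ := by rw [hsqm]; ring

end Pool.Agent.QUD.H16A
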