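import Pool.Agent.Helper16_QUD.AA1

/-!
The square root singularity: if the integral with the pole at `z₀` is analytic at `z₀` then `g` is
constant near `0`, with the value `g z₀`.
-/

set_option autoImplicit false

namespace Pool.Agent.QUD.H16A

open MeasureTheory Filter Topology Set Real

/-- elementary facts for `0 < z ≤ z0 < 1` -/
theorem xy_facts {z0 z : ℝ} (h1 : z0 < 1) (hz : 0 < z) (hzz : z ≤ z0) (t : ℝ) :
    z * sin t ^ 2 ∈ Icc 0 z0 ∧ z * sin t ^ 2 ≤ z ∧ 0 < 1 - z * sin t ^ 2 ∧ yy z t ∈ Icc 0 z0 ∧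
      (1 - z * sin t ^ 2) * (1 - yy z t) = 1 - z := by
  have hs := sin_sq_le_one t
  have hs0 : 0 ≤ sin t ^ 2 := sq_nonneg _
  have h2 : z * sin t ^ 2 ≤ z := by nlinarith
  have h3 : 0 < 1 - z * sin t ^ 2 := by linarith
  have hcs := sin_sq_add_cos_sq t
  have h4 : (1 - z * sin t ^ 2) * (1 - yy z t) = 1 - z := by
    unfold yy
    have : (1 - z * sin t ^ 2) * (z * cos t ^ 2 / (1 - z * sin t ^ 2)) = z * cos t ^ 2 :=
      mul_div_cancel₀ _ h3.ne'
    rw [mul_sub, this, mul_one]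
    nlinarith
  have h5 : 0 ≤ yy z t := by
    unfold yy
    exact div_nonneg (by positivity) h3.le
  have h6 : yy z t ≤ z := by
    unfold yy
    rw [div_le_iff₀ h3]
    nlinarith [mul_nonneg (mul_nonneg hz.le (sub_nonneg.2 (hzz.trans h1.le))) hs0]
  exact ⟨⟨by positivity, h2.trans hzz⟩, h2, h3, ⟨h5, h6.trans hzz⟩, h4⟩

/-- the pole in the variable `Y` -/
noncomputable def ww (z0 z : ℝ) : ℝ := (z - z0) / (1 - z0)

theorem w_fact {z0 z : ℝ} (h1 : z0 < 1) (hz : 0 < z) (hzz : z ≤ z0) (t : ℝ) :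
    (1 - z0) * (yy z t - ww z0 z) = (1 - yy z t) * (z0 - z * sin t ^ 2) := by
  obtain ⟨-, -, h3, -, h5⟩ := xy_facts h1 hz hzz t
  unfold ww
  have hz0 : (1 - z0) ≠ 0 := by linarith
  rw [mul_sub, mul_div_cancel₀ _ hz0]
  have h6 : (1 - z * sin t ^ 2) * yy z t = z - z * sin t ^ 2 := by linarith [h5]
  linarith

theorem cont_x {z0 z : ℝ} (h1 : z0 < 1) (hz : 0 < z) (hzz : z ≤ z0) {φ : ℝ → ℝ}
    (hφ : ContinuousOn φ (Icc 0 z0)) : Continuous fun t => φ (z * sin t ^ 2) := by
  have h2 : Continuous fun t : ℝ => z * sin t ^ 2 := by fun_prop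
  rw [← continuousOn_univ] at h2 ⊢
  exact hφ.comp h2 fun t _ => (xy_facts h1 hz hzz t).1

theorem cont_yy {z0 z : ℝ} (h1 : z0 < 1) (hz : 0 < z) (hzz : z ≤ z0) : Continuous (yy z) := by
  unfold yy
  apply Continuous.div (by fun_prop) (by fun_prop)
  intro t
  exact (xy_facts h1 hz hzz t).2.2.1.ne'

theorem cont_y {z0 z : ℝ} (h1 : z0 < 1) (hz : 0 < z) (hzz : z ≤ z0) {φ : ℝ → ℝ}
    (hφ : ContinuousOn φ (Icc 0 z0)) : Continuous fun t => φ (yy z t) := by
  have h2 := cont_yy h1 hz hzz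
  rw [← continuousOn_univ] at h2 ⊢
  exact hφ.comp h2 fun t _ => (xy_facts h1 hz hzz t).2.2.2.1

/-- `∫ 1 / (Y - w)` -/
theorem int_w (sqi : ∀ A B : ℝ, 0 < A → 0 < B →
    ∫ t in Ioo 0 (π / 2), 1 / (A + B * cos t ^ 2) = π / (2 * √(A * (A + B))))
    {z0 z : ℝ} (h1 : z0 < 1) (hz : 0 < z) (hzz : z < z0) :
    ∫ t in (0 : ℝ)..(π / 2), 1 / (yy z t - ww z0 z) =
      (1 - z0) / (1 - z) * (π / 2 + (1 - z0) * (π / (2 * √((z0 - z) * z0)))) := by
  have hd : 0 < z0 - z := sub_pos.2 hzz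
  have h2 := sqi (z0 - z) z hd hz
  rw [sub_add_cancel] at h2
  have h3 : ∫ t in (0 : ℝ)..(π / 2), 1 / ((z0 - z) + z * cos t ^ 2) = π / (2 * √((z0 - z) * z0)) := by
    rw [intervalIntegral.integral_of_le (by positivity), integral_Ioc_eq_integral_Ioo]
    exact h2
  have hpos : ∀ t : ℝ, 0 < (z0 - z) + z * cos t ^ 2 := fun t => by positivity
  have hcont : Continuous fun t : ℝ => 1 / ((z0 - z) + z * cos t ^ 2) := by
    apply Continuous.div (by fun_prop) (by fun_prop)
    exact fun t => (hpos t).ne'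
  have h4 : ∀ t : ℝ, 1 / (yy z t - ww z0 z) =
      (1 - z0) / (1 - z) * (1 + (1 - z0) * (1 / ((z0 - z) + z * cos t ^ 2))) := by
    intro t
    obtain ⟨-, h6, h7, -, h5⟩ := xy_facts h1 hz hzz.le t
    have h8 := w_fact h1 hz hzz.le t
    have hcs := sin_sq_add_cos_sq t
    have hX : z0 - z * sin t ^ 2 = (z0 - z) + z * cos t ^ 2 := by
      have : sin t ^ 2 = 1 - cos t ^ 2 := by linarith
      rw [this]
      ring
    have hX1 : 1 - z * sin t ^ 2 = (1 - z0) + ((z0 - z) + z * cos t ^ 2) := by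
      linarith
    have hz1 : 0 < 1 - z := by linarith
    have hz01 : 0 < 1 - z0 := by linarith
    have hy : 1 - yy z t = (1 - z) / (1 - z * sin t ^ 2) := by
      rw [eq_div_iff h7.ne', mul_comm]
      exact h5
    have hyw : yy z t - ww z0 z =
        (1 - z) / (1 - z * sin t ^ 2) * ((z0 - z) + z * cos t ^ 2) / (1 - z0) := by
      rw [eq_div_iff hz01.ne', mul_comm, h8, hy, hX]
    rw [hyw, hX1]
    have h9 := hpos t
    generalize (z0 - z) + z * cos t ^ 2 = q at h9
    have hq : 0 < (1 - z0) + q := by linarith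
    field_simp
    ring
  simp only [h4]
  rw [intervalIntegral.integral_const_mul, intervalIntegral.integral_add
    (f := fun _ : ℝ => (1 : ℝ)) (g := fun t : ℝ => (1 - z0) * (1 / ((z0 - z) + z * cos t ^ 2)))
    (continuous_const.intervalIntegrable _ _) ((continuous_const.mul hcont).intervalIntegrable _ _),
    intervalIntegral.integral_const_mul, h3, intervalIntegral.integral_const]
  simp

theorem j_lim (sqi : ∀ A B : ℝ, 0 < A → 0 < B →
    ∫ t in Ioo 0 (π / 2), 1 / (A + B * cos t ^ 2) = π / (2 * √(A * (A + B))))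
    {z0 : ℝ} (h0 : 0 < z0) (h1 : z0 < 1) {k : ℝ → ℝ} (hk : AnalyticOnNhd ℝ k (Icc 0 z0)) :
    Tendsto (fun z => √(z0 - z) * ∫ t in (0 : ℝ)..(π / 2), k (yy z t) / (yy z t - ww z0 z))
      (𝓝[<] z0) (𝓝 (k 0 * ((1 - z0) * (π / (2 * √z0))))) := by
  have hz01 : 0 < 1 - z0 := by linarith
  -- bound for the divided difference
  have h00 : (0 : ℝ) ∈ Icc 0 z0 := ⟨le_rfl, h0.le⟩
  have hds : ContinuousOn (dslope k 0) (Icc 0 z0) := fun x hx =>
    (an_dslope (hk 0 h00) (hk x hx)).continuousAt.continuousWithinAt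
  obtain ⟨C, hC⟩ := isCompact_Icc.exists_bound_of_continuousOn hds
  have hev : ∀ᶠ z in 𝓝[<] z0, 0 < z ∧ z < z0 := by
    filter_upwards [Ioo_mem_nhdsLT h0] with z hz using ⟨hz.1, hz.2⟩
  have hsq : Tendsto (fun z : ℝ => √(z0 - z)) (𝓝[<] z0) (𝓝 0) := by
    have : Continuous fun z : ℝ => √(z0 - z) := by fun_prop
    have h2 := this.tendsto z0
    rw [sub_self, sqrt_zero] at h2
    exact h2.mono_left nhdsWithin_le_nhds
  -- first part
  have hA : Tendsto (fun z => k 0 * ((1 - z0) / (1 - z) * (√(z0 - z) * (π / 2) +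
      (1 - z0) * (π / (2 * √z0))))) (𝓝[<] z0)
      (𝓝 (k 0 * ((1 - z0) / (1 - z0) * (0 * (π / 2) + (1 - z0) * (π / (2 * √z0)))))) := by
    apply Tendsto.const_mul
    apply Tendsto.mul
    · apply Tendsto.div tendsto_const_nhds _ hz01.ne'
      have : Continuous fun z : ℝ => 1 - z := by fun_prop
      exact (this.tendsto z0).mono_left nhdsWithin_le_nhds
    · exact (hsq.mul_const _).add tendsto_const_nhds
  rw [div_self hz01.ne', one_mul, zero_mul, zero_add] at hA
  -- second part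
  have hB : Tendsto (fun z => √(z0 - z) * ∫ t in (0 : ℝ)..(π / 2),
      (k (yy z t) - k 0) / (yy z t - ww z0 z)) (𝓝[<] z0) (𝓝 0) := by
    have hb : Tendsto (fun z : ℝ => √(z0 - z) * (|C| * (π / 2))) (𝓝[<] z0) (𝓝 0) := by
      have := hsq.mul_const (|C| * (π / 2))
      rwa [zero_mul] at this
    refine squeeze_zero_norm' ?_ hb
    filter_upwards [hev] with z hz
    rw [norm_mul, Real.norm_of_nonneg (sqrt_nonneg _)]
    apply mul_le_mul_of_nonneg_left _ (sqrt_nonneg _)
    have h3 := intervalIntegral.norm_integral_le_of_norm_le_const (a := (0 : ℝ)) (b := π / 2)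
      (C := |C|) (f := fun t => (k (yy z t) - k 0) / (yy z t - ww z0 z)) ?_
    · rwa [sub_zero, abs_of_nonneg (by positivity : (0 : ℝ) ≤ π / 2)] at h3
    · intro t _
      obtain ⟨-, -, -, h6, -⟩ := xy_facts h1 hz.1 hz.2.le t
      have h7 : k (yy z t) - k 0 = yy z t * dslope k 0 (yy z t) := by
        have := sub_smul_dslope k 0 (yy z t)
        rw [smul_eq_mul, sub_zero] at this
        exact this.symm
      have h8 := hC _ h6
      have hw : ww z0 z < 0 := by
        unfold ww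
        exact div_neg_of_neg_of_pos (by linarith [hz.2]) hz01
      have hyw : 0 < yy z t - ww z0 z := by linarith [h6.1]
      rw [h7, norm_div, norm_mul, Real.norm_of_nonneg h6.1, Real.norm_of_nonneg hyw.le,
        div_le_iff₀ hyw]
      have h9 : ‖dslope k 0 (yy z t)‖ ≤ |C| := h8.trans (le_abs_self C)
      have h10 : yy z t * ‖dslope k 0 (yy z t)‖ ≤ yy z t * |C| := mul_le_mul_of_nonneg_left h9 h6.1
      have h11 : 0 ≤ |C| := abs_nonneg C
      nlinarith
  have hAB := hA.add hB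
  rw [add_zero] at hAB
  refine hAB.congr' ?_
  filter_upwards [hev] with z hz
  have hd : 0 < z0 - z := sub_pos.2 hz.2
  have hw : ww z0 z < 0 := by
    unfold ww
    exact div_neg_of_neg_of_pos (by linarith [hz.2]) hz01
  have hyw : ∀ t, 0 < yy z t - ww z0 z := fun t => by
    obtain ⟨-, -, -, h6, -⟩ := xy_facts h1 hz.1 hz.2.le t
    linarith [h6.1]
  have hcy := cont_yy h1 hz.1 hz.2.le
  have hc1 : Continuous fun t => k 0 * (1 / (yy z t - ww z0 z)) := by
    apply continuous_const.mul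
    apply Continuous.div continuous_const (hcy.sub continuous_const)
    exact fun t => (hyw t).ne'
  have hc2 : Continuous fun t => (k (yy z t) - k 0) / (yy z t - ww z0 z) := by
    apply Continuous.div ((cont_y h1 hz.1 hz.2.le hk.continuousOn).sub continuous_const)
      (hcy.sub continuous_const)
    exact fun t => (hyw t).ne'
  have h4 : ∫ t in (0 : ℝ)..(π / 2), k (yy z t) / (yy z t - ww z0 z) =
      k 0 * (∫ t in (0 : ℝ)..(π / 2), 1 / (yy z t - ww z0 z)) +
      ∫ t in (0 : ℝ)..(π / 2), (k (yy z t) - k 0) / (yy z t - ww z0 z) := by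
    rw [← intervalIntegral.integral_const_mul, ← intervalIntegral.integral_add
      (f := fun t => k 0 * (1 / (yy z t - ww z0 z)))
      (g := fun t => (k (yy z t) - k 0) / (yy z t - ww z0 z))
      (hc1.intervalIntegrable _ _) (hc2.intervalIntegrable _ _)]
    apply intervalIntegral.integral_congr
    intro t _
    show k (yy z t) / (yy z t - ww z0 z) =
      k 0 * (1 / (yy z t - ww z0 z)) + (k (yy z t) - k 0) / (yy z t - ww z0 z)
    ring
  rw [h4, int_w sqi h1 hz.1 hz.2, mul_add (√(z0 - z))]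
  congr 1
  have h5 : √((z0 - z) * z0) = √(z0 - z) * √z0 := sqrt_mul hd.le z0
  have h6 : √(z0 - z) ≠ 0 := (sqrt_pos.2 hd).ne'
  have h7 : √z0 ≠ 0 := (sqrt_pos.2 h0).ne'
  have h8 : √(z0 - z) * (π / (2 * √((z0 - z) * z0))) = π / (2 * √z0) := by
    rw [h5]
    field_simp
  calc k 0 * ((1 - z0) / (1 - z) * (√(z0 - z) * (π / 2) + (1 - z0) * (π / (2 * √z0))))
      = k 0 * ((1 - z0) / (1 - z) * (√(z0 - z) * (π / 2) +
        (1 - z0) * (√(z0 - z) * (π / (2 * √((z0 - z) * z0)))))) := by rw [h8]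
    _ = _ := by ring

/-- **main lemma** -/
theorem sqx (sqi : ∀ A B : ℝ, 0 < A → 0 < B →
    ∫ t in Ioo 0 (π / 2), 1 / (A + B * cos t ^ 2) = π / (2 * √(A * (A + B))))
    {z0 : ℝ} (h0 : 0 < z0) (h1 : z0 < 1) {r g H : ℝ → ℝ}
    (hr : AnalyticOnNhd ℝ r (Icc 0 z0)) (hg : AnalyticOnNhd ℝ g (Icc 0 z0)) (hr0 : r z0 ≠ 0)
    (hH : AnalyticAt ℝ H z0)
    (hGH : ∀ᶠ z in 𝓝[<] z0, ∫ t in (0 : ℝ)..(π / 2),
      r (z * sin t ^ 2) * (g (z * sin t ^ 2) - g (yy z t)) / (z0 - z * sin t ^ 2) = H z) :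
    ∀ᶠ w in 𝓝 (0 : ℝ), g w = g z0 := by
  by_contra hne
  have hz01 : 0 < 1 - z0 := by linarith
  have h00 : (0 : ℝ) ∈ Icc 0 z0 := ⟨le_rfl, h0.le⟩
  have hzz : z0 ∈ Icc 0 z0 := ⟨h0.le, le_rfl⟩
  obtain ⟨k, hk⟩ : ∃ k : ℝ → ℝ, k = fun x => (1 - x) * (g z0 - g x) := ⟨_, rfl⟩
  have hkan : ∀ x ∈ Icc 0 z0, AnalyticAt ℝ k x := by
    intro x hx
    rw [hk]
    exact (analyticAt_const.sub analyticAt_id).mul (analyticAt_const.sub (hg x hx))
  have hk0 : ¬ ∀ᶠ x in 𝓝 (0 : ℝ), k x = 0 := by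
    intro h
    apply hne
    have h2 : ∀ᶠ x in 𝓝 (0 : ℝ), x < 1 := eventually_lt_nhds zero_lt_one
    filter_upwards [h, h2] with x h3 h4
    rw [hk] at h3
    rcases mul_eq_zero.1 h3 with h5 | h5
    · linarith
    · linarith
  obtain ⟨n, κ, hκ, hκ0, hκe⟩ := (hkan 0 h00).exists_eventuallyEq_pow_smul_nonzero_iff.2 hk0
  obtain ⟨kn, hkn⟩ : ∃ kn : ℝ → ℝ, kn = fun x => if x = 0 then κ 0 else k x / x ^ n := ⟨_, rfl⟩
  have hkn0 : kn 0 = κ 0 := by rw [hkn]; exact if_pos rfl
  have hknz : ∀ x, x ≠ 0 → kn x = k x / x ^ n := fun x hx => by rw [hkn]; exact if_neg hx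
  have hkk : ∀ x, k x = x ^ n * kn x := by
    intro x
    by_cases hx : x = 0
    · subst hx
      have h2 := hκe.self_of_nhds
      rw [sub_self, smul_eq_mul] at h2
      rw [h2, hkn0]
    · rw [hknz x hx, mul_div_cancel₀ _ (pow_ne_zero n hx)]
  have hknan : AnalyticOnNhd ℝ kn (Icc 0 z0) := by
    intro x hx
    by_cases hx0 : x = 0
    · subst hx0
      refine hκ.congr ?_
      filter_upwards [hκe] with y hy
      by_cases hy0 : y = 0
      · rw [hy0, hkn0]
      · rw [hknz y hy0, hy, sub_zero, smul_eq_mul, mul_div_cancel_left₀ _ (pow_ne_zero n hy0)]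
    · have h2 : AnalyticAt ℝ (fun y => k y / y ^ n) x :=
        (hkan x hx).div (analyticAt_id.pow n) (pow_ne_zero n hx0)
      refine h2.congr ?_
      filter_upwards [isOpen_ne.mem_nhds hx0] with y hy
      exact (hknz y hy).symm
  -- the analytic part
  obtain ⟨a1, ha1⟩ : ∃ a1 : ℝ → ℝ, a1 = fun x => -(r x * dslope g z0 x) := ⟨_, rfl⟩
  obtain ⟨a2, ha2⟩ : ∃ a2 : ℝ → ℝ, a2 = fun x => -(dslope r z0 x) := ⟨_, rfl⟩
  obtain ⟨b2, hb2⟩ : ∃ b2 : ℝ → ℝ, b2 = fun x => g z0 - g x := ⟨_, rfl⟩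
  have ha1n : AnalyticOnNhd ℝ a1 (Icc 0 z0) := by
    intro x hx
    rw [ha1]
    exact ((hr x hx).mul (an_dslope (hg z0 hzz) (hg x hx))).neg
  have ha2n : AnalyticOnNhd ℝ a2 (Icc 0 z0) := by
    intro x hx
    rw [ha2]
    exact (an_dslope (hr z0 hzz) (hr x hx)).neg
  have hb2n : AnalyticOnNhd ℝ b2 (Icc 0 z0) := by
    intro x hx
    rw [hb2]
    exact analyticAt_const.sub (hg x hx)
  have honen : AnalyticOnNhd ℝ (fun _ : ℝ => (1 : ℝ)) (Icc 0 z0) := fun x _ => analyticAt_const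
  have hjn : ∀ j : ℕ, AnalyticOnNhd ℝ (fun x => x ^ j * kn x) (Icc 0 z0) := fun j x hx =>
    (analyticAt_id.pow j).mul (hknan x hx)
  obtain ⟨A, hA⟩ : ∃ A : ℝ → ℝ, A = fun z =>
      (∫ t in (0 : ℝ)..(π / 2), a1 (z * sin t ^ 2) * 1) +
      (∫ t in (0 : ℝ)..(π / 2), a2 (z * sin t ^ 2) * b2 (yy z t)) +
      r z0 / (1 - z0) * ∑ j ∈ Finset.range n, ww z0 z ^ (n - 1 - j) *
        ∫ t in (0 : ℝ)..(π / 2), 1 * (yy z t ^ j * kn (yy z t)) := ⟨_, rfl⟩
  have hAan : AnalyticAt ℝ A z0 := by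
    rw [hA]
    refine ((pan h0 h1 ha1n honen).add (pan h0 h1 ha2n hb2n)).add
      (analyticAt_const.mul ?_)
    apply Finset.analyticAt_fun_sum
    intro j _
    have h2 : AnalyticAt ℝ (fun z => ww z0 z) z0 := by
      unfold ww
      exact (analyticAt_id.sub analyticAt_const).div analyticAt_const hz01.ne'
    exact (h2.pow _).mul (pan h0 h1 honen (hjn j))
  -- the identity
  have hid : ∀ᶠ z in 𝓝[<] z0, H z - A z = r z0 / (1 - z0) * (ww z0 z ^ n *
      ∫ t in (0 : ℝ)..(π / 2), kn (yy z t) / (yy z t - ww z0 z)) := by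
    filter_upwards [hGH, Ioo_mem_nhdsLT h0] with z hz hz2
    have hzl := hz2.2.le
    have hw : ww z0 z < 0 := by
      unfold ww
      exact div_neg_of_neg_of_pos (by linarith [hz2.2]) hz01
    have hyw : ∀ t, 0 < yy z t - ww z0 z := fun t => by
      obtain ⟨-, -, -, h6, -⟩ := xy_facts h1 hz2.1 hzl t
      linarith [h6.1]
    have hcy := cont_yy h1 hz2.1 hzl
    have c1 : Continuous fun t => a1 (z * sin t ^ 2) * 1 :=
      (cont_x h1 hz2.1 hzl ha1n.continuousOn).mul continuous_const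
    have c2 : Continuous fun t => a2 (z * sin t ^ 2) * b2 (yy z t) :=
      (cont_x h1 hz2.1 hzl ha2n.continuousOn).mul (cont_y h1 hz2.1 hzl hb2n.continuousOn)
    have c3 : ∀ j ∈ Finset.range n, IntervalIntegrable
        (fun t => ww z0 z ^ (n - 1 - j) * (1 * (yy z t ^ j * kn (yy z t)))) volume 0 (π / 2) := by
      intro j _
      exact (continuous_const.mul (continuous_const.mul
        (cont_y h1 hz2.1 hzl (hjn j).continuousOn))).intervalIntegrable _ _
    have c4 : Continuous fun t => kn (yy z t) / (yy z t - ww z0 z) := by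
      apply Continuous.div (cont_y h1 hz2.1 hzl hknan.continuousOn) (hcy.sub continuous_const)
      exact fun t => (hyw t).ne'
    have c5 : Continuous fun t => ∑ j ∈ Finset.range n,
        ww z0 z ^ (n - 1 - j) * (1 * (yy z t ^ j * kn (yy z t))) := by
      apply continuous_finsetSum
      intro j _
      exact continuous_const.mul (continuous_const.mul
        (cont_y h1 hz2.1 hzl (hjn j).continuousOn))
    have e1 : ∫ t in (0 : ℝ)..(π / 2),
        r (z * sin t ^ 2) * (g (z * sin t ^ 2) - g (yy z t)) / (z0 - z * sin t ^ 2) =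
        ∫ t in (0 : ℝ)..(π / 2), ((a1 (z * sin t ^ 2) * 1 + a2 (z * sin t ^ 2) * b2 (yy z t)) +
          (r z0 / (1 - z0) * (∑ j ∈ Finset.range n,
            ww z0 z ^ (n - 1 - j) * (1 * (yy z t ^ j * kn (yy z t)))) +
          r z0 / (1 - z0) * (ww z0 z ^ n * (kn (yy z t) / (yy z t - ww z0 z))))) := by
      apply intervalIntegral.integral_congr
      intro t _
      show r (z * sin t ^ 2) * (g (z * sin t ^ 2) - g (yy z t)) / (z0 - z * sin t ^ 2) =
        (a1 (z * sin t ^ 2) * 1 + a2 (z * sin t ^ 2) * b2 (yy z t)) +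
          (r z0 / (1 - z0) * (∑ j ∈ Finset.range n,
            ww z0 z ^ (n - 1 - j) * (1 * (yy z t ^ j * kn (yy z t)))) +
          r z0 / (1 - z0) * (ww z0 z ^ n * (kn (yy z t) / (yy z t - ww z0 z))))
      obtain ⟨hx, hxz, hx1, hy, hxy⟩ := xy_facts h1 hz2.1 hzl t
      have hwf := w_fact h1 hz2.1 hzl t
      have hgeo := (Commute.all (yy z t) (ww z0 z)).geom_sum₂_mul n
      have hkY := hkk (yy z t)
      have hyw' := hyw t
      simp only [ha1, ha2, hb2]
      have hds1 : g (z * sin t ^ 2) - g z0 = (z * sin t ^ 2 - z0) * dslope g z0 (z * sin t ^ 2) := by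
        have := sub_smul_dslope g z0 (z * sin t ^ 2)
        rw [smul_eq_mul] at this
        exact this.symm
      have hds2 : r (z * sin t ^ 2) - r z0 = (z * sin t ^ 2 - z0) * dslope r z0 (z * sin t ^ 2) := by
        have := sub_smul_dslope r z0 (z * sin t ^ 2)
        rw [smul_eq_mul] at this
        exact this.symm
      have hsum : ∑ j ∈ Finset.range n, ww z0 z ^ (n - 1 - j) * (1 * (yy z t ^ j * kn (yy z t))) =
          (∑ j ∈ Finset.range n, yy z t ^ j * ww z0 z ^ (n - 1 - j)) * kn (yy z t) := by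
        rw [Finset.sum_mul]
        exact Finset.sum_congr rfl fun j _ => by ring
      rw [hsum]
      have hxlt : 0 < z0 - z * sin t ^ 2 := by linarith [hz2.2]
      have hylt : 0 < 1 - yy z t := by linarith [hy.2]
      have hkY2 : (1 - yy z t) * (g z0 - g (yy z t)) = yy z t ^ n * kn (yy z t) := by
        rw [← hkY, hk]
      generalize yy z t = Y at *
      generalize z * sin t ^ 2 = X at *
      generalize ww z0 z = W at *
      generalize dslope g z0 X = G1 at *
      generalize dslope r z0 X = R1 at *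
      generalize (∑ j ∈ Finset.range n, Y ^ j * W ^ (n - 1 - j)) = S at *
      -- `S * (Y - W) = Y ^ n - W ^ n`
      have e2 : r X * (g X - g Y) / (z0 - X) = -(r X * G1) + -R1 * (g z0 - g Y) +
          r z0 * (g z0 - g Y) / (z0 - X) := by
        have hgX : g X = g z0 + (X - z0) * G1 := by linarith
        have hrX : r X = r z0 + (X - z0) * R1 := by linarith
        rw [eq_comm, ← sub_eq_zero, ← mul_left_inj' hxlt.ne', zero_mul]
        field_simp
        rw [hgX, hrX]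
        ring
      have e3 : (g z0 - g Y) / (z0 - X) = 1 / (1 - z0) * (S * kn Y + W ^ n * (kn Y / (Y - W))) := by
        have hS : S * kn Y + W ^ n * (kn Y / (Y - W)) = Y ^ n * kn Y / (Y - W) := by
          rw [eq_div_iff hyw'.ne', add_mul, mul_assoc, mul_assoc, div_mul_cancel₀ _ hyw'.ne']
          calc S * (kn Y * (Y - W)) + W ^ n * kn Y = (S * (Y - W)) * kn Y + W ^ n * kn Y := by ring
            _ = Y ^ n * kn Y := by rw [hgeo]; ring
        rw [hS, ← hkY2, one_div, ← div_eq_inv_mul, div_div, mul_comm (Y - W) (1 - z0), hwf,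
          mul_div_mul_left _ _ hylt.ne']
      rw [e2, mul_div_assoc (r z0), e3]
      ring
    have i1 : ∫ t in (0 : ℝ)..(π / 2), ((a1 (z * sin t ^ 2) * 1 + a2 (z * sin t ^ 2) * b2 (yy z t)) +
          (r z0 / (1 - z0) * (∑ j ∈ Finset.range n,
            ww z0 z ^ (n - 1 - j) * (1 * (yy z t ^ j * kn (yy z t)))) +
          r z0 / (1 - z0) * (ww z0 z ^ n * (kn (yy z t) / (yy z t - ww z0 z))))) =
        (∫ t in (0 : ℝ)..(π / 2), (a1 (z * sin t ^ 2) * 1 + a2 (z * sin t ^ 2) * b2 (yy z t))) +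
        ∫ t in (0 : ℝ)..(π / 2), (r z0 / (1 - z0) * (∑ j ∈ Finset.range n,
            ww z0 z ^ (n - 1 - j) * (1 * (yy z t ^ j * kn (yy z t)))) +
          r z0 / (1 - z0) * (ww z0 z ^ n * (kn (yy z t) / (yy z t - ww z0 z)))) :=
      intervalIntegral.integral_add
        (f := fun t => a1 (z * sin t ^ 2) * 1 + a2 (z * sin t ^ 2) * b2 (yy z t))
        (g := fun t => r z0 / (1 - z0) * (∑ j ∈ Finset.range n,
            ww z0 z ^ (n - 1 - j) * (1 * (yy z t ^ j * kn (yy z t)))) +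
          r z0 / (1 - z0) * (ww z0 z ^ n * (kn (yy z t) / (yy z t - ww z0 z))))
        ((c1.add c2).intervalIntegrable _ _)
        (((continuous_const.mul c5).add
          (continuous_const.mul (continuous_const.mul c4))).intervalIntegrable _ _)
    have i2 : ∫ t in (0 : ℝ)..(π / 2), (a1 (z * sin t ^ 2) * 1 + a2 (z * sin t ^ 2) * b2 (yy z t)) =
        (∫ t in (0 : ℝ)..(π / 2), a1 (z * sin t ^ 2) * 1) +
        ∫ t in (0 : ℝ)..(π / 2), a2 (z * sin t ^ 2) * b2 (yy z t) :=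
      intervalIntegral.integral_add (f := fun t => a1 (z * sin t ^ 2) * 1)
        (g := fun t => a2 (z * sin t ^ 2) * b2 (yy z t))
        (c1.intervalIntegrable _ _) (c2.intervalIntegrable _ _)
    have i3 : ∫ t in (0 : ℝ)..(π / 2), (r z0 / (1 - z0) * (∑ j ∈ Finset.range n,
            ww z0 z ^ (n - 1 - j) * (1 * (yy z t ^ j * kn (yy z t)))) +
          r z0 / (1 - z0) * (ww z0 z ^ n * (kn (yy z t) / (yy z t - ww z0 z)))) =
        (∫ t in (0 : ℝ)..(π / 2), r z0 / (1 - z0) * (∑ j ∈ Finset.range n,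
            ww z0 z ^ (n - 1 - j) * (1 * (yy z t ^ j * kn (yy z t))))) +
        ∫ t in (0 : ℝ)..(π / 2), r z0 / (1 - z0) * (ww z0 z ^ n *
          (kn (yy z t) / (yy z t - ww z0 z))) :=
      intervalIntegral.integral_add
        (f := fun t => r z0 / (1 - z0) * (∑ j ∈ Finset.range n,
            ww z0 z ^ (n - 1 - j) * (1 * (yy z t ^ j * kn (yy z t)))))
        (g := fun t => r z0 / (1 - z0) * (ww z0 z ^ n * (kn (yy z t) / (yy z t - ww z0 z))))
        ((continuous_const.mul c5).intervalIntegrable _ _)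
        ((continuous_const.mul (continuous_const.mul c4)).intervalIntegrable _ _)
    have i4 : ∫ t in (0 : ℝ)..(π / 2), (∑ j ∈ Finset.range n,
            ww z0 z ^ (n - 1 - j) * (1 * (yy z t ^ j * kn (yy z t)))) =
        ∑ j ∈ Finset.range n, ww z0 z ^ (n - 1 - j) *
          ∫ t in (0 : ℝ)..(π / 2), 1 * (yy z t ^ j * kn (yy z t)) := by
      rw [intervalIntegral.integral_finsetSum c3]
      exact Finset.sum_congr rfl fun j _ => intervalIntegral.integral_const_mul _ _
    rw [hz] at e1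
    rw [e1, i1, i2, i3, intervalIntegral.integral_const_mul, intervalIntegral.integral_const_mul,
      intervalIntegral.integral_const_mul, i4, hA]
    ring
  -- orders
  have hlim := j_lim sqi h0 h1 hknan
  have hC : Tendsto (fun z => (H z - A z) / ((z0 - z) ^ n / √(z0 - z))) (𝓝[<] z0)
      (𝓝 (r z0 / (1 - z0) * ((-1 / (1 - z0)) ^ n * (kn 0 * ((1 - z0) * (π / (2 * √z0))))))) := by
    refine ((hlim.const_mul ((-1 / (1 - z0)) ^ n)).const_mul (r z0 / (1 - z0))).congr' ?_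
    filter_upwards [hid, self_mem_nhdsWithin] with z hz hlt
    have hpos : 0 < z0 - z := sub_pos.2 hlt
    have hsq : 0 < √(z0 - z) := sqrt_pos.2 hpos
    have hwn : ww z0 z ^ n = (-1 / (1 - z0)) ^ n * (z0 - z) ^ n := by
      rw [← mul_pow]
      congr 1
      unfold ww
      ring
    rw [hz, hwn, div_div_eq_mul_div, eq_div_iff (pow_pos hpos n).ne']
    ring
  have hfin := ord_half (hH.sub hAan) n hC
  have hpi : π / (2 * √z0) ≠ 0 := by
    have := sqrt_pos.2 h0
    positivity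
  rcases mul_eq_zero.1 hfin with h2 | h2
  · rcases div_eq_zero_iff.1 h2 with h3 | h3
    · exact hr0 h3
    · exact hz01.ne' h3
  · rcases mul_eq_zero.1 h2 with h3 | h3
    · exact (pow_ne_zero n (div_ne_zero (by norm_num) hz01.ne')) h3
    · rcases mul_eq_zero.1 h3 with h4 | h4
      · exact hκ0 (hkn0 ▸ h4)
      · rcases mul_eq_zero.1 h4 with h5 | h5
        · exact hz01.ne' h5
        · exact hpi h5

end Pool.Agent.QUD.H16A
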