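import Pool.Agent.QUD.StmtsU
import Pool.Agent.Helper16_QUD.AA2

/-!
The densities `DR b b'`, `1 < b' ≤ b < 2`, are linearly independent germs at `0`: the sum of the
densities determines the multiset of the unordered pairs.
-/

set_option autoImplicit false

namespace Pool.Agent.QUD.H16A

open MeasureTheory Filter Topology Set Real Pool.Agent.XQ.U

theorem sqrt_an {u : ℝ} (hu : 0 < u) : AnalyticAt ℝ (fun x : ℝ => √x) u := by
  have h1 : AnalyticAt ℝ (fun x : ℝ => Real.exp (Real.log x / 2)) u := by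
    have h2 : AnalyticAt ℝ Real.log u := analyticAt_log hu
    have h3 : AnalyticAt ℝ (fun x : ℝ => Real.log x / 2) u := by fun_prop
    exact h3.rexp
  refine h1.congr ?_
  filter_upwards [lt_mem_nhds hu] with x hx
  rw [Real.sqrt_eq_rpow, Real.rpow_def_of_pos hx]
  congr 1
  ring

theorem zb_pos (hSing : SingStmt) {u : ℝ} (hu : u ∈ Ioo (1 : ℝ) 2) : 0 < zb u := (hSing u hu).1

theorem zb_lt (hSing : SingStmt) {u v : ℝ} (hv : v ∈ Ioo (1 : ℝ) 2) (hu : 1 < u) (huv : u < v) :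
    zb v < zb u := (hSing v hv).2.1 u ⟨hu, huv⟩

theorem zb_le (hSing : SingStmt) {u v : ℝ} (hv : v ∈ Ioo (1 : ℝ) 2) (hu : 1 < u) (huv : u ≤ v) :
    zb v ≤ zb u := by
  rcases huv.lt_or_eq with h | h
  · exact (zb_lt hSing hv hu h).le
  · rw [h]

theorem zb_lt_one (hSing : SingStmt) {v : ℝ} (hv : v ∈ Ioo (1 : ℝ) 2) : zb v < 1 := by
  have h1 := zb_lt hSing hv (u := (1 + v) / 2) (by linarith [hv.1]) (by linarith [hv.1])
  refine lt_of_lt_of_le h1 ?_
  unfold zb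
  exact Real.cos_sq_le_one _

/-- the kernels are linearly independent modulo constants -/
theorem fr_indep (hSing : SingStmt) (hAnf : AnfStmt) (hPol : PolStmt) (s : Finset ℝ) (w : ℝ → ℝ)
    (c : ℝ) (hs : ∀ u ∈ s, u ∈ Ioo (1 : ℝ) 2)
    (h : ∀ᶠ ζ in 𝓝 (0 : ℝ), ∑ u ∈ s, w u * FR u ζ = c) : ∀ u ∈ s, w u = 0 := by
  classical
  by_contra hcon
  push Not at hcon
  obtain ⟨u1, hu1, hw1⟩ := hcon
  obtain ⟨s', hs'⟩ : ∃ s', s' = s.filter fun u => w u ≠ 0 := ⟨_, rfl⟩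
  have hne : s'.Nonempty := ⟨u1, by rw [hs']; exact Finset.mem_filter.2 ⟨hu1, hw1⟩⟩
  obtain ⟨b, hb, hmax⟩ := s'.exists_max_image id hne
  have hs1 : ∀ u ∈ s', u ∈ Ioo (1 : ℝ) 2 ∧ w u ≠ 0 := by
    intro u hu
    rw [hs'] at hu
    exact ⟨hs u (Finset.mem_filter.1 hu).1, (Finset.mem_filter.1 hu).2⟩
  have hb2 := hs1 b hb
  have hzb := zb_pos hSing hb2.1
  have hzle : ∀ u ∈ s', zb b ≤ zb u := fun u hu => zb_le hSing hb2.1 (hs1 u hu).1.1 (hmax u hu)
  have hsum : ∀ ζ, ∑ u ∈ s, w u * FR u ζ = ∑ u ∈ s', w u * FR u ζ := by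
    intro ζ
    rw [hs', Finset.sum_filter]
    apply Finset.sum_congr rfl
    intro u _
    split_ifs with h1
    · rfl
    · rw [not_not] at h1
      rw [h1, zero_mul]
  have han : AnalyticOnNhd ℝ (fun ζ => ∑ u ∈ s', w u * FR u ζ) (Ioo (-(zb b)) (zb b)) := by
    intro ζ hζ
    apply Finset.analyticAt_fun_sum
    intro u hu
    refine analyticAt_const.mul ((hAnf u (hs1 u hu).1).1 ζ ?_)
    have := hzle u hu
    exact ⟨by linarith [hζ.1], by linarith [hζ.2]⟩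
  have hconst : AnalyticOnNhd ℝ (fun _ : ℝ => c) (Ioo (-(zb b)) (zb b)) := fun _ _ => analyticAt_const
  have heq : ∀ ζ ∈ Ioo (-(zb b)) (zb b), ∑ u ∈ s', w u * FR u ζ = c := by
    have h1 := han.eqOn_of_preconnected_of_eventuallyEq hconst (isPreconnected_Ioo)
      (show (0 : ℝ) ∈ Ioo (-(zb b)) (zb b) from ⟨by linarith, hzb⟩) (by
        filter_upwards [h] with ζ hζ
        rw [← hsum]
        exact hζ)
    exact fun ζ hζ => h1 hζ
  obtain ⟨r, hr, hr0, hrF⟩ := hPol b hb2.1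
  -- multiply by `zb b - ζ`
  have hlim1 : Tendsto (fun ζ => w b * r ζ) (𝓝[<] zb b) (𝓝 (w b * r (zb b))) :=
    (((hr (zb b) ⟨hzb.le, le_rfl⟩).continuousAt.tendsto).mono_left nhdsWithin_le_nhds).const_mul _
  have hlim2 : Tendsto (fun ζ => (zb b - ζ) * (c - ∑ u ∈ s'.erase b, w u * FR u ζ)) (𝓝[<] zb b)
      (𝓝 ((zb b - zb b) * (c - ∑ u ∈ s'.erase b, w u * FR u (zb b)))) := by
    refine Tendsto.mono_left ?_ nhdsWithin_le_nhds
    apply Tendsto.mul
    · exact (continuous_const.sub continuous_id).tendsto _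
    · apply Tendsto.sub tendsto_const_nhds
      apply tendsto_finsetSum
      intro u hu
      have hu1 := Finset.mem_of_mem_erase hu
      have hlt : u < b := lt_of_le_of_ne (hmax u hu1) (Finset.ne_of_mem_erase hu)
      have hz := zb_lt hSing hb2.1 (hs1 u hu1).1.1 hlt
      exact (((hAnf u (hs1 u hu1).1).1 (zb b) ⟨by linarith, hz⟩).continuousAt.tendsto).const_mul _
  rw [sub_self, zero_mul] at hlim2
  have h3 := tendsto_nhds_unique (hlim1.congr' ?_) hlim2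
  · rcases mul_eq_zero.1 h3 with h4 | h4
    · exact hb2.2 h4
    · exact hr0.ne' h4
  · filter_upwards [Ioo_mem_nhdsLT hzb] with ζ hζ
    have h4 := heq ζ ⟨by linarith [hζ.1], hζ.2⟩
    rw [← Finset.add_sum_erase _ _ hb, hrF ζ ⟨hζ.1.le, hζ.2⟩] at h4
    have h5 : 0 < zb b - ζ := sub_pos.2 hζ.2
    rw [← h4]
    field_simp
    ring

theorem yy_eq (z t : ℝ) : YY z t = yy z t := rfl

/-- the sum of the densities with the largest first parameter -/
theorem top_zero (hSing : SingStmt) (hAnf : AnfStmt) (hPol : PolStmt) (hSqb : SqbStmt)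
    (hSqi : SqiStmt) {M : ℝ} (hM : M ∈ Ioo (1 : ℝ) 2) (s : Finset ℝ) (w : ℝ → ℝ)
    (hs : ∀ u ∈ s, u ∈ Ioo 1 M) {H : ℝ → ℝ} (hH : AnalyticAt ℝ H (zb M))
    (h : ∀ᶠ z in 𝓝[<] zb M, ∑ u ∈ s, w u * DR M u z = H z) : ∀ u ∈ s, w u = 0 := by
  have hz0 := zb_pos hSing hM
  have hz1 := zb_lt_one hSing hM
  have hin : ∀ u ∈ s, u ∈ Ioo (1 : ℝ) 2 := fun u hu => ⟨(hs u hu).1, (hs u hu).2.trans hM.2⟩
  have hA : ∀ u ∈ s, AnalyticOnNhd ℝ (FR u) (Icc 0 (zb M)) := by
    intro u hu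
    refine (hAnf u (hin u hu)).1.mono ?_
    intro ζ hζ
    have h6 := zb_lt hSing hM (hs u hu).1 (hs u hu).2
    exact ⟨by linarith [hζ.1], by linarith [hζ.2]⟩
  obtain ⟨g, hg⟩ : ∃ g : ℝ → ℝ, g = fun ζ => ∑ u ∈ s, w u * FR u ζ := ⟨_, rfl⟩
  have hgA : AnalyticOnNhd ℝ g (Icc 0 (zb M)) := by
    intro ζ hζ
    rw [hg]
    apply Finset.analyticAt_fun_sum
    intro u hu
    exact analyticAt_const.mul (hA u hu ζ hζ)
  obtain ⟨r, hrA, hr0, hrF⟩ := hPol M hM
  obtain ⟨rh, hrh⟩ : ∃ rh : ℝ → ℝ, rh = fun ζ => r ζ / √(1 - ζ) := ⟨_, rfl⟩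
  have hrhA : AnalyticOnNhd ℝ rh (Icc 0 (zb M)) := by
    intro ζ hζ
    rw [hrh]
    have h6 : 0 < 1 - ζ := by linarith [hζ.2]
    have h7 : AnalyticAt ℝ (fun x : ℝ => 1 - x) ζ := by fun_prop
    have h8 : AnalyticAt ℝ (fun x : ℝ => √(1 - x)) ζ :=
      AnalyticAt.comp (g := fun x : ℝ => √x) (f := fun x : ℝ => 1 - x) (sqrt_an h6) h7
    exact (hrA ζ hζ).div h8 (Real.sqrt_pos.mpr h6).ne'
  have hrh0 : rh (zb M) ≠ 0 := by
    rw [hrh]
    have h6 : 0 < 1 - zb M := by linarith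
    exact (div_pos hr0 (Real.sqrt_pos.mpr h6)).ne'
  have key : ∀ z ∈ Ioo 0 (zb M), ∑ u ∈ s, w u * DR M u z = 4 * ∫ t in (0 : ℝ)..(π / 2),
      rh (z * sin t ^ 2) * (g (z * sin t ^ 2) - g (yy z t)) / (zb M - z * sin t ^ 2) := by
    intro z hz
    rw [intervalIntegral.integral_of_le (by positivity), integral_Ioc_eq_integral_Ioo]
    have e1 : ∀ u ∈ s, w u * DR M u z = 4 * ∫ t in Ioo 0 (π / 2),
        w u * (FR M (z * sin t ^ 2) * (FR u (z * sin t ^ 2) - FR u (YY z t))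
          / √(1 - z * sin t ^ 2)) := by
      intro u hu
      rw [(hSqb M u z hM (hs u hu) hz).2, integral_const_mul]
      ring
    rw [Finset.sum_congr rfl e1, ← Finset.mul_sum, ← integral_finsetSum]
    · congr 1
      apply setIntegral_congr_fun measurableSet_Ioo
      intro t _
      show ∑ u ∈ s, w u * (FR M (z * sin t ^ 2) * (FR u (z * sin t ^ 2) - FR u (YY z t))
          / √(1 - z * sin t ^ 2)) =
        rh (z * sin t ^ 2) * (g (z * sin t ^ 2) - g (yy z t)) / (zb M - z * sin t ^ 2)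
      have hX : z * sin t ^ 2 ∈ Ico 0 (zb M) := by
        have h2 := (xy_facts hz1 hz.1 hz.2.le t).2.1
        exact ⟨(xy_facts hz1 hz.1 hz.2.le t).1.1, by linarith [hz.2]⟩
      rw [hrF _ hX, yy_eq, hrh, hg]
      simp only
      rw [← Finset.sum_sub_distrib, Finset.mul_sum, Finset.sum_div]
      apply Finset.sum_congr rfl
      intro u _
      ring
    · intro u hu
      exact ((hSqb M u z hM (hs u hu) hz).1).const_mul _
  have hconst := sqx (fun A B hA hB => hSqi A B hA hB) hz0 hz1 hrhA hgA hrh0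
    (H := fun z => H z / 4) (hH.div analyticAt_const (by norm_num)) (by
      filter_upwards [h, Ioo_mem_nhdsLT hz0] with z h2 h3
      rw [key z h3] at h2
      linarith)
  refine fr_indep hSing hAnf hPol s w (g (zb M)) hin ?_
  filter_upwards [hconst] with ζ hζ
  rw [← hζ, hg]

/-- **linear independence of the densities** -/
theorem dr_indep (hHol : HolStmt) (hSing : SingStmt) (hAnf : AnfStmt) (hPol : PolStmt)
    (hSqb : SqbStmt) (hSqi : SqiStmt) (s : Finset (ℝ × ℝ)) (w : ℝ × ℝ → ℝ)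
    (hs : ∀ p ∈ s, 1 < p.2 ∧ p.2 ≤ p.1 ∧ p.1 < 2)
    (h : ∀ᶠ z in 𝓝 (0 : ℝ), ∑ p ∈ s, w p * DR p.1 p.2 z = 0) : ∀ p ∈ s, w p = 0 := by
  classical
  by_contra hcon
  push Not at hcon
  obtain ⟨p1, hp1, hw1⟩ := hcon
  obtain ⟨s', hs'⟩ : ∃ s', s' = s.filter fun p => w p ≠ 0 := ⟨_, rfl⟩
  have hne : s'.Nonempty := ⟨p1, by rw [hs']; exact Finset.mem_filter.2 ⟨hp1, hw1⟩⟩
  obtain ⟨q, hq, hmax⟩ := s'.exists_max_image (fun p => p.1) hne
  have hs1 : ∀ p ∈ s', 1 < p.2 ∧ p.2 ≤ p.1 ∧ p.1 < 2 ∧ w p ≠ 0 := by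
    intro p hp
    rw [hs'] at hp
    obtain ⟨h1, h2⟩ := Finset.mem_filter.1 hp
    obtain ⟨h3, h4, h5⟩ := hs p h1
    exact ⟨h3, h4, h5, h2⟩
  obtain ⟨M, hMq⟩ : ∃ M, M = q.1 := ⟨_, rfl⟩
  rw [← hMq] at hmax
  have hM : M ∈ Ioo (1 : ℝ) 2 := by
    obtain ⟨h3, h4, h5, -⟩ := hs1 q hq
    rw [hMq]
    exact ⟨by linarith, h5⟩
  have hz0 := zb_pos hSing hM
  have hsum : ∀ z, ∑ p ∈ s, w p * DR p.1 p.2 z = ∑ p ∈ s', w p * DR p.1 p.2 z := by
    intro z
    rw [hs', Finset.sum_filter]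
    apply Finset.sum_congr rfl
    intro p _
    split_ifs with h1
    · rfl
    · rw [not_not] at h1
      rw [h1, zero_mul]
  have hI1 : ∀ p ∈ s', p.1 ∈ Ioo (1 : ℝ) 2 := fun p hp => by
    obtain ⟨h3, h4, h5, -⟩ := hs1 p hp
    exact ⟨by linarith, h5⟩
  have hI2 : ∀ p ∈ s', p.2 ∈ Ioo (1 : ℝ) 2 := fun p hp => by
    obtain ⟨h3, h4, h5, -⟩ := hs1 p hp
    exact ⟨h3, by linarith⟩
  have han : AnalyticOnNhd ℝ (fun z => ∑ p ∈ s', w p * DR p.1 p.2 z) (Ioo (-(zb M)) (zb M)) := by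
    intro z hz
    apply Finset.analyticAt_fun_sum
    intro p hp
    refine analyticAt_const.mul (hHol p.1 p.2 (zb M) (hI1 p hp) (hI2 p hp) ?_ ?_ z hz)
    · exact zb_le hSing hM (hI1 p hp).1 (hmax p hp)
    · exact zb_le hSing hM (hI2 p hp).1 ((hs1 p hp).2.1.trans (hmax p hp))
  have heq : ∀ z ∈ Ioo (-(zb M)) (zb M), ∑ p ∈ s', w p * DR p.1 p.2 z = 0 := by
    have h1 := han.eqOn_zero_of_preconnected_of_eventuallyEq_zero (isPreconnected_Ioo)
      (show (0 : ℝ) ∈ Ioo (-(zb M)) (zb M) from ⟨by linarith, hz0⟩) (by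
        filter_upwards [h] with z hz
        rw [← hsum]
        exact hz)
    exact fun z hz => h1 hz
  obtain ⟨-, -, hNN, hS1, hS2, hS3, -⟩ := hSing M hM
  have hNpos : ∀ᶠ z in 𝓝[<] zb M, 0 < NN M z := hNN.eventually (eventually_gt_atTop 0)
  -- the pair `(M, M)`
  have hMM : (M, M) ∉ s' := by
    intro hmem
    have hlim : Tendsto (fun z => - ∑ p ∈ s'.erase (M, M), w p * (DR p.1 p.2 z / NN M z))
        (𝓝[<] zb M) (𝓝 (- ∑ p ∈ s'.erase (M, M), w p *
          (if p.1 = M then 2 * Del M p.2 else 0))) := by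
      apply Tendsto.neg
      apply tendsto_finsetSum
      intro p hp
      apply Tendsto.const_mul
      have hp' := Finset.mem_of_mem_erase hp
      obtain ⟨h3, h4, h5, -⟩ := hs1 p hp'
      by_cases hpM : p.1 = M
      · rw [if_pos hpM]
        have hlt : p.2 < M := by
          rw [hpM] at h4
          refine lt_of_le_of_ne h4 ?_
          intro h6
          exact Finset.ne_of_mem_erase hp (Prod.ext hpM h6)
        have := hS1 p.2 ⟨h3, hlt⟩
        rw [hpM]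
        exact this
      · rw [if_neg hpM]
        have hlt : p.1 < M := lt_of_le_of_ne (hmax p hp') hpM
        exact hS2 p.1 p.2 ⟨by linarith, hlt⟩ ⟨h3, by linarith⟩
    have hlim2 : Tendsto (fun z => w (M, M) * (DR M M z / NN M z)) (𝓝[<] zb M)
        (𝓝 (- ∑ p ∈ s'.erase (M, M), w p * (if p.1 = M then 2 * Del M p.2 else 0))) := by
      refine hlim.congr' ?_
      filter_upwards [Ioo_mem_nhdsLT hz0] with z hz
      have h3 := heq z ⟨by linarith [hz.1], hz.2⟩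
      rw [← Finset.add_sum_erase _ _ hmem] at h3
      have h4 : ∑ p ∈ s'.erase (M, M), w p * (DR p.1 p.2 z / NN M z) =
          (∑ p ∈ s'.erase (M, M), w p * DR p.1 p.2 z) / NN M z := by
        rw [Finset.sum_div]
        exact Finset.sum_congr rfl fun p _ => by ring
      rw [h4]
      have h5 : ∑ p ∈ s'.erase (M, M), w p * DR p.1 p.2 z = - (w (M, M) * DR M M z) := by
        linarith
      rw [h5]
      ring
    have hw := (hs1 _ hmem).2.2.2
    have hlim3 : Tendsto (fun z => |w (M, M)| * (DR M M z / NN M z)) (𝓝[<] zb M) atTop :=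
      hS3.const_mul_atTop (abs_pos.2 hw)
    have hlim4 : Tendsto (fun z => |w (M, M) * (DR M M z / NN M z)|) (𝓝[<] zb M) atTop := by
      refine tendsto_atTop_mono ?_ hlim3
      intro z
      rw [abs_mul]
      exact mul_le_mul_of_nonneg_left (le_abs_self _) (abs_nonneg _)
    exact not_tendsto_nhds_of_tendsto_atTop hlim4 _ hlim2.abs
  -- the pairs `(M, u)`
  obtain ⟨S, hS⟩ : ∃ S : Finset ℝ, S = (s'.filter fun p => p.1 = M).image fun p => p.2 := ⟨_, rfl⟩
  have hSmem : ∀ u, u ∈ S ↔ (M, u) ∈ s' := by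
    intro u
    rw [hS, Finset.mem_image]
    constructor
    · rintro ⟨p, hp, rfl⟩
      obtain ⟨h1, h2⟩ := Finset.mem_filter.1 hp
      rw [← h2]
      exact h1
    · intro h1
      exact ⟨(M, u), Finset.mem_filter.2 ⟨h1, rfl⟩, rfl⟩
  have hSI : ∀ u ∈ S, u ∈ Ioo 1 M := by
    intro u hu
    rw [hSmem] at hu
    obtain ⟨h3, h4, -, -⟩ := hs1 _ hu
    refine ⟨h3, lt_of_le_of_ne h4 ?_⟩
    intro h5
    have h6 : u = M := h5
    rw [h6] at hu
    exact hMM hu
  have hsplit : ∀ z, ∑ p ∈ s', w p * DR p.1 p.2 z = ∑ u ∈ S, w (M, u) * DR M u z +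
      ∑ p ∈ s'.filter (fun p => ¬ p.1 = M), w p * DR p.1 p.2 z := by
    intro z
    rw [← Finset.sum_filter_add_sum_filter_not s' (fun p => p.1 = M)]
    congr 1
    rw [hS, Finset.sum_image]
    · apply Finset.sum_congr rfl
      intro p hp
      have h2 := (Finset.mem_filter.1 hp).2
      rw [← h2]
    · intro p hp p' hp' hpp
      have h1 := (Finset.mem_filter.1 hp).2
      have h2 := (Finset.mem_filter.1 hp').2
      exact Prod.ext (h1.trans h2.symm) hpp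
  have hH : AnalyticAt ℝ (fun z => - ∑ p ∈ s'.filter (fun p => ¬ p.1 = M), w p * DR p.1 p.2 z)
      (zb M) := by
    apply AnalyticAt.neg
    apply Finset.analyticAt_fun_sum
    intro p hp
    obtain ⟨h1, h2⟩ := Finset.mem_filter.1 hp
    have hlt : p.1 < M := lt_of_le_of_ne (hmax p h1) h2
    have hlt2 : p.2 < M := lt_of_le_of_lt (hs1 p h1).2.1 hlt
    have hz1 := zb_lt hSing hM (hI1 p h1).1 hlt
    have hz2 := zb_lt hSing hM (hI2 p h1).1 hlt2
    refine analyticAt_const.mul (hHol p.1 p.2 (min (zb p.1) (zb p.2)) (hI1 p h1) (hI2 p h1)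
      (min_le_left _ _) (min_le_right _ _) _ ⟨?_, lt_min hz1 hz2⟩)
    have := lt_min hz1 hz2
    linarith
  have hfin := top_zero hSing hAnf hPol hSqb hSqi hM S (fun u => w (M, u)) hSI hH (by
    filter_upwards [Ioo_mem_nhdsLT hz0] with z hz
    have h3 := heq z ⟨by linarith [hz.1], hz.2⟩
    rw [hsplit] at h3
    linarith)
  have hqS : q.2 ∈ S := by
    rw [hSmem, hMq]
    exact hq
  have h9 := hfin q.2 hqS
  have h10 : (M, q.2) = q := by rw [hMq]
  rw [h10] at h9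
  exact (hs1 q hq).2.2.2 h9

/-- the pair in decreasing order -/
noncomputable def srt (p : ℝ × ℝ) : ℝ × ℝ := (max p.1 p.2, min p.1 p.2)

/-- **AA**: the sum of the densities determines the multiset of the unordered pairs -/
theorem aa (hHol : HolStmt) (hSing : SingStmt) (hDbd : DbdStmt) (hAnf : AnfStmt) (hPol : PolStmt)
    (hSqb : SqbStmt) (hSqi : SqiStmt) (AP AQ : List (ℝ × ℝ))
    (hP : ∀ p ∈ AP, p.1 ∈ Ioo (1 : ℝ) 2 ∧ p.2 ∈ Ioo (1 : ℝ) 2)
    (hQ : ∀ p ∈ AQ, p.1 ∈ Ioo (1 : ℝ) 2 ∧ p.2 ∈ Ioo (1 : ℝ) 2)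
    (h : ∀ᶠ z in 𝓝 (0 : ℝ), (AP.map fun p => DR p.1 p.2 z).sum = (AQ.map fun p => DR p.1 p.2 z).sum) :
    (AP.map srt).Perm (AQ.map srt) := by
  classical
  have hsym : ∀ (p : ℝ × ℝ) (z : ℝ), DR p.1 p.2 z = DR (srt p).1 (srt p).2 z := by
    intro p z
    unfold srt
    rcases le_total p.1 p.2 with h1 | h1
    · rw [max_eq_right h1, min_eq_left h1]
      exact hDbd.2.1 _ _ _
    · rw [max_eq_left h1, min_eq_right h1]
  have hcount : ∀ (l : List (ℝ × ℝ)) (s : Finset (ℝ × ℝ)) (z : ℝ), (∀ p ∈ l, srt p ∈ s) →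
      (l.map fun p => DR p.1 p.2 z).sum =
        ∑ q ∈ s, ((l.map srt).count q : ℝ) * DR q.1 q.2 z := by
    intro l s z
    induction l with
    | nil => intro _; simp
    | cons a l ih =>
      intro hl
      rw [List.map_cons, List.sum_cons, ih fun p hp => hl p (List.mem_cons_of_mem a hp), hsym a z]
      have h1 : ∀ q ∈ s, (((a :: l).map srt).count q : ℝ) * DR q.1 q.2 z =
          (if srt a = q then DR q.1 q.2 z else 0) + ((l.map srt).count q : ℝ) * DR q.1 q.2 z := by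
        intro q _
        rw [List.map_cons, List.count_cons]
        by_cases hq : srt a = q
        · rw [if_pos hq, if_pos (by simp [hq])]
          push_cast
          ring
        · rw [if_neg hq, if_neg (by simp [hq])]
          push_cast
          ring
      rw [Finset.sum_congr rfl h1, Finset.sum_add_distrib, Finset.sum_ite_eq,
        if_pos (hl a (List.mem_cons_self))]
  obtain ⟨s, hs⟩ : ∃ s : Finset (ℝ × ℝ), s = (AP.map srt).toFinset ∪ (AQ.map srt).toFinset :=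
    ⟨_, rfl⟩
  have hsP : ∀ p ∈ AP, srt p ∈ s := fun p hp => by
    rw [hs]
    exact Finset.mem_union_left _ (List.mem_toFinset.2 (List.mem_map_of_mem hp))
  have hsQ : ∀ p ∈ AQ, srt p ∈ s := fun p hp => by
    rw [hs]
    exact Finset.mem_union_right _ (List.mem_toFinset.2 (List.mem_map_of_mem hp))
  have hsr : ∀ p : ℝ × ℝ, p.1 ∈ Ioo (1 : ℝ) 2 ∧ p.2 ∈ Ioo (1 : ℝ) 2 →
      1 < (srt p).2 ∧ (srt p).2 ≤ (srt p).1 ∧ (srt p).1 < 2 := by
    intro p hp
    exact ⟨lt_min hp.1.1 hp.2.1, min_le_max, max_lt hp.1.2 hp.2.2⟩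
  have hsI : ∀ q ∈ s, 1 < q.2 ∧ q.2 ≤ q.1 ∧ q.1 < 2 := by
    intro q hq
    rw [hs] at hq
    rcases Finset.mem_union.1 hq with h1 | h1
    · obtain ⟨p, hp, rfl⟩ := List.mem_map.1 (List.mem_toFinset.1 h1)
      exact hsr p (hP p hp)
    · obtain ⟨p, hp, rfl⟩ := List.mem_map.1 (List.mem_toFinset.1 h1)
      exact hsr p (hQ p hp)
  have hind := dr_indep hHol hSing hAnf hPol hSqb hSqi s
    (fun q => ((AP.map srt).count q : ℝ) - ((AQ.map srt).count q : ℝ)) hsI (by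
      filter_upwards [h] with z hz
      rw [hcount AP s z hsP, hcount AQ s z hsQ] at hz
      simp only [sub_mul]
      rw [Finset.sum_sub_distrib, hz, sub_self])
  rw [List.perm_iff_count]
  intro q
  by_cases hq : q ∈ s
  · have h1 := hind q hq
    have h2 : ((AP.map srt).count q : ℝ) = ((AQ.map srt).count q : ℝ) := by linarith
    exact_mod_cast h2
  · rw [hs] at hq
    have h1 : q ∉ AP.map srt := fun h2 => hq (Finset.mem_union_left _ (List.mem_toFinset.2 h2))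
    have h2 : q ∉ AQ.map srt := fun h2 => hq (Finset.mem_union_right _ (List.mem_toFinset.2 h2))
    rw [List.count_eq_zero_of_not_mem h1, List.count_eq_zero_of_not_mem h2]

end Pool.Agent.QUD.H16A
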