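import Pool.Agent.QUD.StmtsRB

/-!
# Squad QUD (MP_5b0138_an), row VTX: the vertices of a cyclically ordered quadrilateral (helper16)
-/

set_option autoImplicit false

namespace Pool.Agent.QUD.H16

open Complex Pool.Agent.H16Iso Pool.Agent.H62T
open Pool.Agent.AEU Pool.Agent.XQ
open Pool.Agent.H1Gen (det CCW poly)

theorem unit_sq {w : ℂ} (h : ‖w‖ = 1) : w.re * w.re + w.im * w.im = 1 := by
  have h1 := Complex.normSq_eq_norm_sq w
  rw [h, Complex.normSq_apply] at h1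
  linarith

theorem norm_smul_I {w : ℂ} (h : ‖w‖ = 1) (t : ℝ) (ht : 0 ≤ t) : ‖(t : ℂ) * (I * w)‖ = t := by
  rw [norm_mul, norm_mul, Complex.norm_I, h, Complex.norm_real, Real.norm_eq_abs, abs_of_nonneg ht]
  ring

/-- the edge from `p = vx a b` to `q = vx b c` -/
theorem edge {a b c : HP} {p q : ℂ} (hu : ‖b.1‖ = 1) (hab : 0 < dt a.1 b.1)
    (hbc : 0 < dt b.1 c.1) (h1 : ip a.1 p = a.2) (h2 : ip b.1 p = b.2) (h3 : ip b.1 q = b.2)
    (h4 : ip c.1 q = c.2) (hx : ∃ x, ip b.1 x = b.2 ∧ ip a.1 x < a.2 ∧ ip c.1 x < c.2) :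
    q - p = (‖q - p‖ : ℂ) * (I * b.1) ∧ 0 < ‖q - p‖ := by
  obtain ⟨x, x1, x2, x3⟩ := hx
  have hsq := unit_sq hu
  obtain ⟨t, ht⟩ : ∃ t, t = dt b.1 (q - p) := ⟨_, rfl⟩
  obtain ⟨s, hs⟩ : ∃ s, s = dt b.1 (x - p) := ⟨_, rfl⟩
  have key : ∀ w : ℂ, ip b.1 w = 0 → w = ((dt b.1 w : ℝ) : ℂ) * (I * b.1) := by
    intro w hw
    simp only [ip, dt] at hw ⊢
    apply Complex.ext
    · simp only [mul_re, mul_im, ofReal_re, ofReal_im, I_re, I_im]
      linear_combination (-w.re) * hsq + b.1.re * hw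
    · simp only [mul_re, mul_im, ofReal_re, ofReal_im, I_re, I_im]
      linear_combination (-w.im) * hsq + b.1.im * hw
  have e1 : q - p = (t : ℂ) * (I * b.1) := by
    rw [ht]
    apply key
    simp only [ip, sub_re, sub_im] at h2 h3 ⊢
    linarith
  have e2 : x - p = (s : ℂ) * (I * b.1) := by
    rw [hs]
    apply key
    simp only [ip, sub_re, sub_im] at h2 x1 ⊢
    linarith
  have r1 : (q - p).re = -(t * b.1.im) := by
    rw [e1]
    simp
  have i1 : (q - p).im = t * b.1.re := by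
    rw [e1]
    simp
  have r2 : (x - p).re = -(s * b.1.im) := by
    rw [e2]
    simp
  have i2 : (x - p).im = s * b.1.re := by
    rw [e2]
    simp
  simp only [sub_re, sub_im] at r1 i1 r2 i2
  simp only [ip, dt] at *
  have hs0 : 0 < s := by
    have h5 : 0 < s * (a.1.re * b.1.im - a.1.im * b.1.re) := by
      have : s * (a.1.re * b.1.im - a.1.im * b.1.re) =
          (a.1.re * p.re + a.1.im * p.im) - (a.1.re * x.re + a.1.im * x.im) := by
        linear_combination a.1.re * r2 + a.1.im * i2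
      rw [this, h1]
      linarith
    exact (pos_iff_pos_of_mul_pos h5).mpr hab
  have hst : s < t := by
    have h5 : 0 < (t - s) * (b.1.re * c.1.im - b.1.im * c.1.re) := by
      have : (t - s) * (b.1.re * c.1.im - b.1.im * c.1.re) =
          (c.1.re * q.re + c.1.im * q.im) - (c.1.re * x.re + c.1.im * x.im) := by
        linear_combination (-c.1.re) * r1 - c.1.im * i1 + c.1.re * r2 + c.1.im * i2
      rw [this, h4]
      linarith
    have := (pos_iff_pos_of_mul_pos h5).mpr hbc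
    linarith
  have ht0 : 0 < t := hs0.trans hst
  have hn : ‖q - p‖ = t := by
    rw [e1]
    exact norm_smul_I hu t ht0.le
  rw [hn]
  exact ⟨e1, ht0⟩

/-- The four edges. -/
theorem edges {a b c d : HP} (h : Cyc a b c d) :
    (vx a b - vx d a = (‖vx a b - vx d a‖ : ℂ) * (I * a.1) ∧ 0 < ‖vx a b - vx d a‖) ∧
    (vx b c - vx a b = (‖vx b c - vx a b‖ : ℂ) * (I * b.1) ∧ 0 < ‖vx b c - vx a b‖) ∧
    (vx c d - vx b c = (‖vx c d - vx b c‖ : ℂ) * (I * c.1) ∧ 0 < ‖vx c d - vx b c‖) ∧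
    (vx d a - vx c d = (‖vx d a - vx c d‖ : ℂ) * (I * d.1) ∧ 0 < ‖vx d a - vx c d‖) := by
  obtain ⟨n1, n2, n3, n4, n5, n6⟩ := h.ne
  have ma : a ∈ ({a, b, c, d} : Finset HP) := by simp
  have mb : b ∈ ({a, b, c, d} : Finset HP) := by simp
  have mc : c ∈ ({a, b, c, d} : Finset HP) := by simp
  have md : d ∈ ({a, b, c, d} : Finset HP) := by simp
  refine ⟨?_, ?_, ?_, ?_⟩
  · obtain ⟨x, x1, x2⟩ := h.pg.side a ma
    exact edge (h.pg.unit a ma) h.da h.ab h.vda.on₁ h.vda.on₂ h.vab.on₁ h.vab.on₂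
      ⟨x, x1, x2 d md n3.symm, x2 b mb n1.symm⟩
  · obtain ⟨x, x1, x2⟩ := h.pg.side b mb
    exact edge (h.pg.unit b mb) h.ab h.bc h.vab.on₁ h.vab.on₂ h.vbc.on₁ h.vbc.on₂
      ⟨x, x1, x2 a ma n1, x2 c mc n4.symm⟩
  · obtain ⟨x, x1, x2⟩ := h.pg.side c mc
    exact edge (h.pg.unit c mc) h.bc h.cd h.vbc.on₁ h.vbc.on₂ h.vcd.on₁ h.vcd.on₂
      ⟨x, x1, x2 b mb n4, x2 d md n6.symm⟩
  · obtain ⟨x, x1, x2⟩ := h.pg.side d md
    exact edge (h.pg.unit d md) h.cd h.da h.vcd.on₁ h.vcd.on₂ h.vda.on₁ h.vda.on₂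
      ⟨x, x1, x2 c mc n6, x2 a ma n3⟩

theorem det_edge (s t : ℝ) (u w : ℂ) :
    det ((s : ℂ) * (I * u)) ((t : ℂ) * (I * w)) = s * t * dt u w := by
  simp only [det, dt, mul_re, mul_im, ofReal_re, ofReal_im, I_re, I_im]
  ring

theorem ccw {a b c d : HP} (h : Cyc a b c d) : CCW (vv a b c d) := by
  obtain ⟨⟨e0, t0⟩, ⟨e1, t1⟩, ⟨e2, t2⟩, ⟨e3, t3⟩⟩ := edges h
  have d01 : 0 < det (vx a b - vx d a) (vx b c - vx a b) := by
    rw [e0, e1, det_edge]
    exact mul_pos (mul_pos t0 t1) h.ab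
  have d12 : 0 < det (vx b c - vx a b) (vx c d - vx b c) := by
    rw [e1, e2, det_edge]
    exact mul_pos (mul_pos t1 t2) h.bc
  have d23 : 0 < det (vx c d - vx b c) (vx d a - vx c d) := by
    rw [e2, e3, det_edge]
    exact mul_pos (mul_pos t2 t3) h.cd
  have d30 : 0 < det (vx d a - vx c d) (vx a b - vx d a) := by
    rw [e3, e0, det_edge]
    exact mul_pos (mul_pos t3 t0) h.da
  simp only [det, sub_re, sub_im] at d01 d12 d23 d30
  intro i j k hij hjk
  fin_cases i <;> fin_cases j <;> fin_cases k <;>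
    first
      | exact absurd hij (by decide)
      | exact absurd hjk (by decide)
      | (simp only [vv, det, sub_re, sub_im, Fin.zero_eta, Fin.mk_one, Fin.reduceFinMk,
          Matrix.cons_val_zero, Matrix.cons_val_one, Matrix.cons_val]
         linarith)

theorem ang {t s : ℝ} {u w p q : ℂ} (hu : ‖u‖ = 1) (hw : ‖w‖ = 1) (ht : 0 < t) (hs : 0 < s)
    (hp : p = (t : ℂ) * (I * u)) (hq : q = -((s : ℂ) * (I * w))) :
    Real.cos (Real.arccos (sp p q / (‖p‖ * ‖q‖))) = -ip u w := by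
  have h1 : ‖p‖ = t := by rw [hp, norm_smul_I hu t ht.le]
  have h2 : ‖q‖ = s := by rw [hq, norm_neg, norm_smul_I hw s hs.le]
  have h3 : sp p q = -(t * s * ip u w) := by
    rw [hp, hq]
    simp only [sp, ip, mul_re, mul_im, ofReal_re, ofReal_im, I_re, I_im, neg_re, neg_im]
    ring
  have h4 : sp p q / (‖p‖ * ‖q‖) = -ip u w := by
    rw [h1, h2, h3]
    field_simp
  rw [h4]
  have h5 := unit_sq hu
  have h6 := unit_sq hw
  have h7 : ip u w ^ 2 + (u.re * w.im - u.im * w.re) ^ 2 = 1 := by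
    simp only [ip]
    have : (u.re * w.re + u.im * w.im) ^ 2 + (u.re * w.im - u.im * w.re) ^ 2 =
        (u.re * u.re + u.im * u.im) * (w.re * w.re + w.im * w.im) := by ring
    rw [this, h5, h6, mul_one]
  apply Real.cos_arccos
  · nlinarith [sq_nonneg (u.re * w.im - u.im * w.re)]
  · nlinarith [sq_nonneg (u.re * w.im - u.im * w.re)]

theorem same {a a' : HP} {p q p' q' : ℂ} (hp : p = p') (hq : q = q')
    (h : q - p = (‖q - p‖ : ℂ) * (I * a.1)) (h0 : 0 < ‖q - p‖)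
    (h' : q' - p' = (‖q' - p'‖ : ℂ) * (I * a'.1)) (ha : ip a.1 p = a.2)
    (ha' : ip a'.1 p' = a'.2) : a = a' := by
  subst hp hq
  have h1 : a.1 = a'.1 := by
    have h2 : (‖q - p‖ : ℂ) * (I * a.1) = (‖q - p‖ : ℂ) * (I * a'.1) := h.symm.trans h'
    have h3 : (‖q - p‖ : ℂ) ≠ 0 := Complex.ofReal_ne_zero.mpr h0.ne'
    exact mul_left_cancel₀ I_ne_zero (mul_left_cancel₀ h3 h2)
  refine Prod.ext h1 ?_
  rw [← ha, ← ha', h1]

theorem ip_comm' (u w : ℂ) : ip u w = ip w u := by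
  simp only [ip]
  ring

theorem vtx (cyc : CycStmt) : VtxStmt := by
  intro a b c d h
  obtain ⟨⟨e0, t0⟩, ⟨e1, t1⟩, ⟨e2, t2⟩, ⟨e3, t3⟩⟩ := edges h
  have hccw := ccw h
  have ua := h.pg.unit a (by simp)
  have ub := h.pg.unit b (by simp)
  have uc := h.pg.unit c (by simp)
  have ud := h.pg.unit d (by simp)
  refine ⟨hccw, ?_, e0, e1, e2, e3, ?_, ?_, ?_, ?_⟩
  · obtain ⟨a', b', c', d', h', hop, w0, w1, w2, w3⟩ := cyc _ hccw
    have w0' : vx d a = vx d' a' := w0.symm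
    have w1' : vx a b = vx a' b' := w1.symm
    have w2' : vx b c = vx b' c' := w2.symm
    have w3' : vx c d = vx c' d' := w3.symm
    obtain ⟨⟨f0, -⟩, ⟨f1, -⟩, ⟨f2, -⟩, ⟨f3, -⟩⟩ := edges h'
    have ea : a = a' := same w0' w1' e0 t0 f0 h.vda.on₂ h'.vda.on₂
    have eb : b = b' := same w1' w2' e1 t1 f1 h.vab.on₂ h'.vab.on₂
    have ec : c = c' := same w2' w3' e2 t2 f2 h.vbc.on₂ h'.vbc.on₂
    have ed : d = d' := same w3' w0' e3 t3 f3 h.vcd.on₂ h'.vcd.on₂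
    rw [ea, eb, ec, ed] at hop ⊢
    rw [hop]
  · have := ang ua ud t0 t3 e0 (q := vx c d - vx d a) (by rw [← e3]; ring)
    rw [ip_comm' d.1 a.1]
    exact this
  · have := ang ub ua t1 t0 e1 (q := vx d a - vx a b) (by rw [← e0]; ring)
    rw [ip_comm' a.1 b.1]
    exact this
  · have := ang uc ub t2 t1 e2 (q := vx a b - vx b c) (by rw [← e1]; ring)
    rw [ip_comm' b.1 c.1]
    exact this
  · have := ang ud uc t3 t2 e3 (q := vx b c - vx c d) (by rw [← e2]; ring)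
    rw [ip_comm' c.1 d.1]
    exact this

end Pool.Agent.QUD.H16
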